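import Mathlib

set_option autoImplicit false

namespace Pool.Agent.OPl

/-- the four bounds on the number `t` in terms of `n` modulo `4` -/
def Bd (n : ℕ) (t : ℝ) : Prop :=
  (n % 4 = 0 → (n : ℝ) ^ 2 / 4 - n ≤ t) ∧
  (n % 4 = 1 → 3 * (n : ℝ) ^ 2 / 8 - n + 5 / 8 ≤ t) ∧
  (n % 4 = 2 → (n : ℝ) ^ 2 / 4 - (n : ℝ) / 2 ≤ t) ∧
  (n % 4 = 3 → 3 * (n : ℝ) ^ 2 / 8 - 3 * (n : ℝ) / 2 + 17 / 8 ≤ t)

/-- even `n`: the larger bound suffices -/
private theorem ar_even2 (n : ℕ) (t : ℝ) (hn : n % 2 = 0) (h : (n : ℝ) ^ 2 / 4 - (n : ℝ) / 2 ≤ t) :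
    Bd n t := by
  have hn0 : (0 : ℝ) ≤ n := Nat.cast_nonneg _
  refine ⟨fun _ => by linarith, fun h1 => by omega, fun _ => h, fun h1 => by omega⟩

/-- odd `n ≥ 3`: the larger bound suffices -/
private theorem ar_odd1 (n : ℕ) (t : ℝ) (hn : n % 2 = 1) (hn3 : 3 ≤ n)
    (h : 3 * (n : ℝ) ^ 2 / 8 - n + 5 / 8 ≤ t) : Bd n t := by
  have hn0 : (3 : ℝ) ≤ n := by exact_mod_cast hn3
  refine ⟨fun h1 => by omega, fun _ => h, fun h1 => by omega, fun _ => by linarith⟩

private theorem ar_core (a b W : ℕ) (t : ℝ) (hab : b ≤ a) (hb : 1 ≤ b) (hn : 4 ≤ a + b)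
    (h1 : W ≤ 2 * (a / 2) * (b * (b - 1)))
    (h3 : Even a → W ≤ (a - 2) * (b * (b - 1)) + 2 * a * (b / 2))
    (h4 : Even b → W ≤ (b - 2) * (a * (a - 1)) + 2 * b * (a / 2))
    (ht : (a : ℝ) * b * (a - 1) / 2 + (a : ℝ) * b * (b - 1) / 2 - W ≤ t) :
    Bd (a + b) t := by
  rcases Nat.even_or_odd' b with ⟨j, rfl | rfl⟩
  · -- `b = 2 j`, `j ≥ 1`
    obtain ⟨j, rfl⟩ : ∃ k, j = k + 1 := ⟨j - 1, by omega⟩
    rcases Nat.even_or_odd' a with ⟨i, rfl | rfl⟩
    · -- `a = 2 i`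
      obtain ⟨m, rfl⟩ : ∃ m, i = j + 1 + m := ⟨i - (j + 1), by omega⟩
      have h3' := h3 ⟨j + 1 + m, by ring⟩
      have e1 : 2 * (j + 1 + m) - 2 = 2 * (j + m) := by omega
      have e2 : 2 * (j + 1) - 1 = 2 * j + 1 := by omega
      have e3 : 2 * (j + 1) / 2 = j + 1 := by omega
      rw [e1, e2, e3] at h3'
      have hW : (W : ℝ) ≤ 2 * (j + m) * (2 * (j + 1) * (2 * j + 1)) +
          2 * (2 * (j + 1 + m)) * (j + 1) := by exact_mod_cast h3'
      have hj : (0 : ℝ) ≤ j := Nat.cast_nonneg _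
      have hm : (0 : ℝ) ≤ m := Nat.cast_nonneg _
      push_cast at ht
      rcases Nat.eq_zero_or_pos m with rfl | hmp
      · refine ⟨fun _ => ?_, fun h => by omega, fun h => by omega, fun h => by omega⟩
        push_cast at *
        nlinarith [hW, ht]
      · have hm1 : (1 : ℝ) ≤ m := by exact_mod_cast hmp
        obtain ⟨m, rfl⟩ : ∃ k, m = k + 1 := ⟨m - 1, by omega⟩
        have hm : (0 : ℝ) ≤ m := Nat.cast_nonneg _
        by_cases hex : j = 0 ∧ m = 0
        · obtain ⟨rfl, rfl⟩ := hex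
          have h4' := h4 ⟨1, rfl⟩
          norm_num at h4'
          have hW4 : (W : ℝ) ≤ 8 := by exact_mod_cast h4'
          apply ar_even2 _ _ (by norm_num)
          norm_num at ht ⊢
          linarith
        · apply ar_even2 _ _ (by omega)
          push_cast at *
          have key : (0 : ℝ) ≤ -2 + 3 * m + 3 * m ^ 2 + 2 * j + 8 * (j * m) + 4 * (j * m ^ 2) +
              4 * j ^ 2 + 4 * (j ^ 2 * m) := by
            rcases Nat.eq_zero_or_pos m with rfl | hmp'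
            · have hj1 : (1 : ℝ) ≤ j := by
                have : 1 ≤ j := by omega
                exact_mod_cast this
              push_cast
              nlinarith [sq_nonneg (j : ℝ)]
            · have hm1' : (1 : ℝ) ≤ m := by exact_mod_cast hmp'
              have q1 : (0 : ℝ) ≤ m ^ 2 := by positivity
              have q2 : (0 : ℝ) ≤ j * m := by positivity
              have q3 : (0 : ℝ) ≤ j * m ^ 2 := by positivity
              have q4 : (0 : ℝ) ≤ j ^ 2 := by positivity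
              have q5 : (0 : ℝ) ≤ j ^ 2 * m := by positivity
              nlinarith
          nlinarith [hW, ht, key]
    · -- `a = 2 i + 1`
      obtain ⟨m, rfl⟩ : ∃ m, i = j + 1 + m := ⟨i - (j + 1), by omega⟩
      have e2 : 2 * (j + 1) - 1 = 2 * j + 1 := by omega
      have e3 : (2 * (j + 1 + m) + 1) / 2 = j + 1 + m := by omega
      rw [e2, e3] at h1
      have hW : (W : ℝ) ≤ 2 * (j + 1 + m) * (2 * (j + 1) * (2 * j + 1)) := by exact_mod_cast h1
      have hj : (0 : ℝ) ≤ j := Nat.cast_nonneg _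
      have hm : (0 : ℝ) ≤ m := Nat.cast_nonneg _
      apply ar_odd1 _ _ (by omega) (by omega)
      push_cast at *
      have key : (0 : ℝ) ≤ 5 / 2 * m + 5 / 2 * m ^ 2 + 6 * (j * m) + 4 * (j * m ^ 2) +
        4 * (j ^ 2 * m) := by positivity
      nlinarith [hW, ht, key]
  · -- `b = 2 j + 1`
    rcases Nat.even_or_odd' a with ⟨i, rfl | rfl⟩
    · -- `a = 2 i`, `i ≥ j + 1`
      obtain ⟨m, rfl⟩ : ∃ m, i = j + 1 + m := ⟨i - (j + 1), by omega⟩
      have h3' := h3 ⟨j + 1 + m, by ring⟩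
      have e1 : 2 * (j + 1 + m) - 2 = 2 * (j + m) := by omega
      have e2 : 2 * j + 1 - 1 = 2 * j := by omega
      have e3 : (2 * j + 1) / 2 = j := by omega
      rw [e1, e2, e3] at h3'
      have hW : (W : ℝ) ≤ 2 * (j + m) * ((2 * j + 1) * (2 * j)) +
          2 * (2 * (j + 1 + m)) * j := by exact_mod_cast h3'
      have hj : (0 : ℝ) ≤ j := Nat.cast_nonneg _
      have hm : (0 : ℝ) ≤ m := Nat.cast_nonneg _
      rcases Nat.eq_zero_or_pos m with rfl | hmp
      · refine ⟨fun h => by omega, fun h => by omega, fun h => by omega, fun _ => ?_⟩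
        push_cast at *
        nlinarith [hW, ht]
      · obtain ⟨m, rfl⟩ : ∃ k, m = k + 1 := ⟨m - 1, by omega⟩
        have hm : (0 : ℝ) ≤ m := Nat.cast_nonneg _
        apply ar_odd1 _ _ (by omega) (by omega)
        push_cast at *
        have key : (0 : ℝ) ≤ 1 + 3 / 2 * m + 1 / 2 * m ^ 2 + 6 * (j * m) + 4 * (j * m ^ 2) +
          4 * j ^ 2 + 4 * (j ^ 2 * m) := by positivity
        nlinarith [hW, ht, key]
    · -- `a = 2 i + 1`
      obtain ⟨m, rfl⟩ : ∃ m, i = j + m := ⟨i - j, by omega⟩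
      have e2 : 2 * j + 1 - 1 = 2 * j := by omega
      have e3 : (2 * (j + m) + 1) / 2 = j + m := by omega
      rw [e2, e3] at h1
      have hW : (W : ℝ) ≤ 2 * (j + m) * ((2 * j + 1) * (2 * j)) := by exact_mod_cast h1
      have hj : (0 : ℝ) ≤ j := Nat.cast_nonneg _
      have hm : (0 : ℝ) ≤ m := Nat.cast_nonneg _
      apply ar_even2 _ _ (by omega)
      push_cast at *
      have key : (0 : ℝ) ≤ m ^ 2 + 4 * (j * m ^ 2) + 4 * (j ^ 2 * m) := by positivity
      nlinarith [hW, ht, key]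

theorem ar_zero (a b W : ℕ) (t : ℝ) (ha : 1 ≤ a) (hb : 1 ≤ b) (hn : 4 ≤ a + b)
    (h1 : W ≤ 2 * (a / 2) * (b * (b - 1)))
    (h2 : W ≤ 2 * (b / 2) * (a * (a - 1)))
    (h3 : Even a → W ≤ (a - 2) * (b * (b - 1)) + 2 * a * (b / 2))
    (h4 : Even b → W ≤ (b - 2) * (a * (a - 1)) + 2 * b * (a / 2))
    (ht : (a : ℝ) * b * (a - 1) / 2 + (a : ℝ) * b * (b - 1) / 2 - W ≤ t) :
    Bd (a + b) t := by
  rcases le_total b a with hab | hab
  · exact ar_core a b W t hab hb hn h1 h3 h4 ht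
  · rw [add_comm a b]
    refine ar_core b a W t hab ha (by omega) h2 h4 h3 ?_
    linarith [ht, mul_comm (a : ℝ) b]

private theorem arp_core (a b c W e : ℕ) (t : ℝ) (hab : b ≤ a) (hb : 1 ≤ b) (hc : c = 1 ∨ c = 2)
    (h1 : W ≤ 2 * (a / 2) * (b * (b - 1)))
    (h3 : Even a → W ≤ (a - 2) * (b * (b - 1)) + 2 * a * (b / 2))
    (he : (a + c = 3 ∧ b + c = 3) → 2 ≤ e) (hn : 4 ≤ a + b + c)
    (ht : (c : ℝ) * a * b + (a : ℝ) * b * (a - 1) / 2 + (a : ℝ) * b * (b - 1) / 2 - W + e ≤ t) :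
    Bd (a + b + c) t := by
  have he0 : (0 : ℝ) ≤ e := Nat.cast_nonneg _
  rcases Nat.even_or_odd' b with ⟨j, rfl | rfl⟩
  · -- `b = 2 j`, `j ≥ 1`
    obtain ⟨j, rfl⟩ : ∃ k, j = k + 1 := ⟨j - 1, by omega⟩
    rcases Nat.even_or_odd' a with ⟨i, rfl | rfl⟩
    · -- `a = 2 i`
      obtain ⟨m, rfl⟩ : ∃ m, i = j + 1 + m := ⟨i - (j + 1), by omega⟩
      have h3' := h3 ⟨j + 1 + m, by ring⟩
      have e1 : 2 * (j + 1 + m) - 2 = 2 * (j + m) := by omega
      have e2 : 2 * (j + 1) - 1 = 2 * j + 1 := by omega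
      have e3 : 2 * (j + 1) / 2 = j + 1 := by omega
      rw [e1, e2, e3] at h3'
      have hW : (W : ℝ) ≤ 2 * (j + m) * (2 * (j + 1) * (2 * j + 1)) +
          2 * (2 * (j + 1 + m)) * (j + 1) := by exact_mod_cast h3'
      have hj : (0 : ℝ) ≤ j := Nat.cast_nonneg _
      have hm : (0 : ℝ) ≤ m := Nat.cast_nonneg _
      rcases hc with rfl | rfl
      · apply ar_odd1 _ _ (by omega) (by omega)
        by_cases hex : j = 0 ∧ m = 0
        · obtain ⟨rfl, rfl⟩ := hex
          have he2 : (2 : ℝ) ≤ e := by exact_mod_cast he (by norm_num)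
          norm_num at h3'
          have hW4 : (W : ℝ) ≤ 4 := by exact_mod_cast h3'
          norm_num at ht ⊢
          linarith
        · push_cast at *
          have key : (0 : ℝ) ≤ -1 - 3 / 2 * m + 5 / 2 * m ^ 2 + j + 2 * (j * m) +
              4 * (j * m ^ 2) + 2 * j ^ 2 + 4 * (j ^ 2 * m) := by
            rcases Nat.eq_zero_or_pos m with rfl | hmp'
            · have hj1 : (1 : ℝ) ≤ j := by
                have : 1 ≤ j := by omega
                exact_mod_cast this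
              push_cast
              nlinarith [sq_nonneg (j : ℝ)]
            · have hm1' : (1 : ℝ) ≤ m := by exact_mod_cast hmp'
              have q2 : (0 : ℝ) ≤ j * m := by positivity
              have q3 : (0 : ℝ) ≤ j * m ^ 2 := by positivity
              have q4 : (0 : ℝ) ≤ j ^ 2 := by positivity
              have q5 : (0 : ℝ) ≤ j ^ 2 * m := by positivity
              nlinarith
          nlinarith [hW, ht, key]
      · apply ar_even2 _ _ (by omega)
        push_cast at *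
        have key : (0 : ℝ) ≤ 2 + 3 * m + 3 * m ^ 2 + 10 * j + 8 * (j * m) + 4 * (j * m ^ 2) +
          8 * j ^ 2 + 4 * (j ^ 2 * m) := by positivity
        nlinarith [hW, ht, key]
    · -- `a = 2 i + 1`
      obtain ⟨m, rfl⟩ : ∃ m, i = j + 1 + m := ⟨i - (j + 1), by omega⟩
      have e2 : 2 * (j + 1) - 1 = 2 * j + 1 := by omega
      have e3 : (2 * (j + 1 + m) + 1) / 2 = j + 1 + m := by omega
      rw [e2, e3] at h1
      have hW : (W : ℝ) ≤ 2 * (j + 1 + m) * (2 * (j + 1) * (2 * j + 1)) := by exact_mod_cast h1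
      have hj : (0 : ℝ) ≤ j := Nat.cast_nonneg _
      have hm : (0 : ℝ) ≤ m := Nat.cast_nonneg _
      rcases hc with rfl | rfl
      · apply ar_even2 _ _ (by omega)
        push_cast at *
        have key : (0 : ℝ) ≤ 5 + 7 * m + 3 * m ^ 2 + 11 * j + 12 * (j * m) + 4 * (j * m ^ 2) +
          6 * j ^ 2 + 4 * (j ^ 2 * m) := by positivity
        nlinarith [hW, ht, key]
      · apply ar_odd1 _ _ (by omega) (by omega)
        push_cast at *
        have key : (0 : ℝ) ≤ 5 + 15 / 2 * m + 5 / 2 * m ^ 2 + 14 * j + 14 * (j * m) +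
          4 * (j * m ^ 2) + 8 * j ^ 2 + 4 * (j ^ 2 * m) := by positivity
        nlinarith [hW, ht, key]
  · -- `b = 2 j + 1`
    rcases Nat.even_or_odd' a with ⟨i, rfl | rfl⟩
    · -- `a = 2 i`, `i ≥ j + 1`
      obtain ⟨m, rfl⟩ : ∃ m, i = j + 1 + m := ⟨i - (j + 1), by omega⟩
      have h3' := h3 ⟨j + 1 + m, by ring⟩
      have e1 : 2 * (j + 1 + m) - 2 = 2 * (j + m) := by omega
      have e2 : 2 * j + 1 - 1 = 2 * j := by omega
      have e3 : (2 * j + 1) / 2 = j := by omega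
      rw [e1, e2, e3] at h3'
      have hW : (W : ℝ) ≤ 2 * (j + m) * ((2 * j + 1) * (2 * j)) +
          2 * (2 * (j + 1 + m)) * j := by exact_mod_cast h3'
      have hj : (0 : ℝ) ≤ j := Nat.cast_nonneg _
      have hm : (0 : ℝ) ≤ m := Nat.cast_nonneg _
      rcases hc with rfl | rfl
      · apply ar_even2 _ _ (by omega)
        push_cast at *
        have key : (0 : ℝ) ≤ 1 + 2 * m + m ^ 2 + 3 * j + 4 * (j * m) + 4 * (j * m ^ 2) +
          6 * j ^ 2 + 4 * (j ^ 2 * m) := by positivity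
        nlinarith [hW, ht, key]
      · apply ar_odd1 _ _ (by omega) (by omega)
        push_cast at *
        have key : (0 : ℝ) ≤ 3 / 2 * m + 1 / 2 * m ^ 2 + 4 * j + 6 * (j * m) +
          4 * (j * m ^ 2) + 8 * j ^ 2 + 4 * (j ^ 2 * m) := by positivity
        nlinarith [hW, ht, key]
    · -- `a = 2 i + 1`
      obtain ⟨m, rfl⟩ : ∃ m, i = j + m := ⟨i - j, by omega⟩
      have e2 : 2 * j + 1 - 1 = 2 * j := by omega
      have e3 : (2 * (j + m) + 1) / 2 = j + m := by omega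
      rw [e2, e3] at h1
      have hW : (W : ℝ) ≤ 2 * (j + m) * ((2 * j + 1) * (2 * j)) := by exact_mod_cast h1
      have hj : (0 : ℝ) ≤ j := Nat.cast_nonneg _
      have hm : (0 : ℝ) ≤ m := Nat.cast_nonneg _
      rcases hc with rfl | rfl
      · apply ar_odd1 _ _ (by omega) (by omega)
        push_cast at *
        have key : (0 : ℝ) ≤ 1 / 2 * m + 1 / 2 * m ^ 2 + j + 2 * (j * m) + 4 * (j * m ^ 2) +
          2 * j ^ 2 + 4 * (j ^ 2 * m) := by positivity
        nlinarith [hW, ht, key]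
      · apply ar_even2 _ _ (by omega)
        push_cast at *
        have key : (0 : ℝ) ≤ 2 * m + m ^ 2 + 4 * j + 8 * (j * m) + 4 * (j * m ^ 2) +
          8 * j ^ 2 + 4 * (j ^ 2 * m) := by positivity
        nlinarith [hW, ht, key]

theorem ar_pos (a b c W e : ℕ) (t : ℝ) (ha : 1 ≤ a) (hb : 1 ≤ b) (hc : c = 1 ∨ c = 2)
    (h1 : W ≤ 2 * (a / 2) * (b * (b - 1)))
    (h2 : W ≤ 2 * (b / 2) * (a * (a - 1)))
    (h3 : Even a → W ≤ (a - 2) * (b * (b - 1)) + 2 * a * (b / 2))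
    (h4 : Even b → W ≤ (b - 2) * (a * (a - 1)) + 2 * b * (a / 2))
    (he : (a + c = 3 ∧ b + c = 3) → 2 ≤ e) (hn : 4 ≤ a + b + c)
    (ht : (c : ℝ) * a * b + (a : ℝ) * b * (a - 1) / 2 + (a : ℝ) * b * (b - 1) / 2 - W + e ≤ t) :
    Bd (a + b + c) t := by
  rcases le_total b a with hab | hab
  · exact arp_core a b c W e t hab hb hc h1 h3 he hn ht
  · rw [add_comm a b]
    refine arp_core b a c W e t hab ha hc h2 h4 (fun h => he ⟨h.2, h.1⟩) (by omega) ?_
    have e1 : (c : ℝ) * b * a = c * a * b := by ring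
    have e2 : (b : ℝ) * a = a * b := mul_comm _ _
    rw [e1, e2]
    linarith

end Pool.Agent.OPl
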