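import Pool.Agent.OPl.Geo
import Pool.Agent.OPl.Ar

/-! # Ordinary planes of sets in two planes: the count -/

set_option autoImplicit false

namespace Pool.Agent.OPl

open scoped BigOperators

theorem Dat.symm {S A B C : Finset Sp} {P Q : Sp → ℝ × ℝ} (D : Dat S A B C P Q) :
    Dat S B A C Q P where
  union := by rw [Finset.union_comm B A]; exact D.union
  dAB := D.dAB.symm
  dAC := D.dBC
  dBC := D.dAC
  neA := D.neB
  neB := D.neA
  cardC := D.cardC
  injP := D.injQ
  injQ := D.injP
  genA := D.genB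
  genB := D.genA
  ordA := D.ordB
  ordB := D.ordA
  ordC := fun x hx y hy z hz => by
    have h := D.ordC y hy x hx z hz
    rwa [Finset.insert_comm] at h
  ordAC := D.ordBC
  ordBC := D.ordAC

open Classical in
/-- the ordinary triples -/
noncomputable def ords (S : Finset Sp) : Finset (Finset Sp) :=
  (S.powersetCard 3).filter fun T => Ord S T

open Classical in
/-- the ordinary triples with `i` points in `A`, `j` points in `B`, `k` points in `C` -/
noncomputable def typ (S A B C : Finset Sp) (i j k : ℕ) : Finset (Finset Sp) :=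
  (ords S).filter fun T => (T ∩ A).card = i ∧ (T ∩ B).card = j ∧ (T ∩ C).card = k

/- MODULE CA: the triples `{x, y, b}`, `x ≠ y` in `A`, `b` in `B` without partner in the direction `P y - P x`,
are in `typ S A B C 2 1 0`, each comes from two `(x, y, b)`; the number of `(x, y, b)` with a partner is
`∑ (x, y) in A.offDiag, |par (B.image Q) (P y - P x)| = quad (B.image Q) (A.image P)` (`quad_eq`). -/

open Classical in
private theorem CA_sub {S A B C : Finset Sp} {P Q : Sp → ℝ × ℝ} (D : Dat S A B C P Q) :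
    A ⊆ S ∧ B ⊆ S ∧ C ⊆ S := by
  have h := D.union
  refine ⟨fun x hx => ?_, fun x hx => ?_, fun x hx => ?_⟩
  · rw [← h, Finset.mem_union, Finset.mem_union]
    exact Or.inl (Or.inl hx)
  · rw [← h, Finset.mem_union, Finset.mem_union]
    exact Or.inl (Or.inr hx)
  · rw [← h, Finset.mem_union]
    exact Or.inr hx

open Classical in
private theorem CA_mem {S A B C : Finset Sp} {P Q : Sp → ℝ × ℝ} (D : Dat S A B C P Q)
    {x y b : Sp} (hx : x ∈ A) (hy : y ∈ A) (hb : b ∈ B) (hxy : x ≠ y)
    (h : ∀ p ∈ B, p ≠ b → cr (Q p - Q b) (P y - P x) ≠ 0) :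
    ({x, y, b} : Finset Sp) ∈ typ S A B C 2 1 0 := by
  obtain ⟨hA, hB, hC⟩ := CA_sub D
  have hxB : x ∉ B := Finset.disjoint_left.1 D.dAB hx
  have hyB : y ∉ B := Finset.disjoint_left.1 D.dAB hy
  have hxC : x ∉ C := Finset.disjoint_left.1 D.dAC hx
  have hyC : y ∉ C := Finset.disjoint_left.1 D.dAC hy
  have hbC : b ∉ C := Finset.disjoint_left.1 D.dBC hb
  have hbA : b ∉ A := Finset.disjoint_right.1 D.dAB hb
  have hxb : x ≠ b := fun h => hxB (h ▸ hb)
  have hyb : y ≠ b := fun h => hyB (h ▸ hb)
  rw [typ, ords, Finset.mem_filter, Finset.mem_filter, Finset.mem_powersetCard]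
  refine ⟨⟨⟨?_, ?_⟩, D.ordA x hx y hy hxy b hb h⟩, ?_, ?_, ?_⟩
  · intro q hq
    simp only [Finset.mem_insert, Finset.mem_singleton] at hq
    rcases hq with rfl | rfl | rfl
    · exact hA hx
    · exact hA hy
    · exact hB hb
  · exact Finset.card_eq_three.2 ⟨x, y, b, hxy, hxb, hyb, rfl⟩
  · have h1 : ({x, y, b} : Finset Sp) ∩ A = {x, y} := by
      ext q
      simp only [Finset.mem_inter, Finset.mem_insert, Finset.mem_singleton]
      constructor
      · rintro ⟨rfl | rfl | rfl, hq⟩
        · exact Or.inl rfl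
        · exact Or.inr rfl
        · exact absurd hq hbA
      · rintro (rfl | rfl)
        · exact ⟨Or.inl rfl, hx⟩
        · exact ⟨Or.inr (Or.inl rfl), hy⟩
    rw [h1, Finset.card_pair hxy]
  · have h1 : ({x, y, b} : Finset Sp) ∩ B = {b} := by
      ext q
      simp only [Finset.mem_inter, Finset.mem_insert, Finset.mem_singleton]
      constructor
      · rintro ⟨rfl | rfl | rfl, hq⟩
        · exact absurd hq hxB
        · exact absurd hq hyB
        · rfl
      · rintro rfl
        exact ⟨Or.inr (Or.inr rfl), hb⟩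
    rw [h1, Finset.card_singleton]
  · have h1 : ({x, y, b} : Finset Sp) ∩ C = ∅ := by
      ext q
      simp only [Finset.mem_inter, Finset.mem_insert, Finset.mem_singleton, Finset.notMem_empty,
        iff_false, not_and]
      rintro (rfl | rfl | rfl)
      · exact hxC
      · exact hyC
      · exact hbC
    rw [h1, Finset.card_empty]

theorem cnt_two {S A B C : Finset Sp} {P Q : Sp → ℝ × ℝ} (D : Dat S A B C P Q) :
    A.card * (A.card - 1) * B.card ≤
      2 * (typ S A B C 2 1 0).card + quad (B.image Q) (A.image P) := by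
  classical
  set X : Finset ((Sp × Sp) × Sp) := A.offDiag ×ˢ B with hX
  have hXc : X.card = A.card * (A.card - 1) * B.card := by
    rw [hX, Finset.card_product, Finset.offDiag_card, Nat.mul_sub, mul_one]
  set X1 := X.filter fun w => ∀ p ∈ B, p ≠ w.2 → cr (Q p - Q w.2) (P w.1.2 - P w.1.1) ≠ 0 with hX1
  set X2 := X.filter fun w => ¬ ∀ p ∈ B, p ≠ w.2 → cr (Q p - Q w.2) (P w.1.2 - P w.1.1) ≠ 0 with hX2
  have hsplit : X1.card + X2.card = X.card := Finset.card_filter_add_card_filter_not _
  have h1 : X1.card ≤ 2 * (typ S A B C 2 1 0).card := by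
    refine Finset.card_le_mul_card_image_of_maps_to (f := fun w => ({w.1.1, w.1.2, w.2} : Finset Sp))
      ?_ 2 ?_
    · rintro ⟨⟨x, y⟩, b⟩ hw
      rw [hX1, Finset.mem_filter, hX, Finset.mem_product, Finset.mem_offDiag] at hw
      obtain ⟨⟨⟨hx, hy, hxy⟩, hb⟩, hpar⟩ := hw
      exact CA_mem D hx hy hb hxy hpar
    · intro T hT
      rw [typ, Finset.mem_filter] at hT
      have h2 : (X1.filter fun w => ({w.1.1, w.1.2, w.2} : Finset Sp) = T) ⊆
          (T ∩ A).offDiag ×ˢ (T ∩ B) := by
        rintro ⟨⟨x, y⟩, b⟩ hw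
        rw [Finset.mem_filter, hX1, Finset.mem_filter, hX, Finset.mem_product,
          Finset.mem_offDiag] at hw
        obtain ⟨⟨⟨⟨hx, hy, hxy⟩, hb⟩, _⟩, hT'⟩ := hw
        simp only at hx hy hb hT' hxy
        rw [Finset.mem_product, Finset.mem_offDiag]
        subst hT'
        simp only [Finset.mem_inter, Finset.mem_insert, Finset.mem_singleton]
        exact ⟨⟨⟨Or.inl trivial, hx⟩, ⟨Or.inr (Or.inl trivial), hy⟩, hxy⟩, Or.inr (Or.inr trivial), hb⟩
      refine (Finset.card_le_card h2).trans ?_
      rw [Finset.card_product, Finset.offDiag_card, hT.2.1, hT.2.2.1]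
  have h2 : X2.card ≤ quad (B.image Q) (A.image P) := by
    rw [quad_eq D.genB]
    have h3 : X2.card = ∑ w ∈ A.offDiag, (B.filter fun b => Q b ∈ par (B.image Q) (P w.2 - P w.1)).card := by
      rw [Finset.card_eq_sum_card_fiberwise (f := Prod.fst) (t := A.offDiag)]
      · refine Finset.sum_congr rfl fun w hw => ?_
        refine Finset.card_bij (fun v _ => v.2) ?_ ?_ ?_
        · rintro ⟨w', b⟩ hv
          rw [Finset.mem_filter, hX2, Finset.mem_filter, hX, Finset.mem_product] at hv
          obtain ⟨⟨⟨_, hb⟩, hpar⟩, rfl⟩ := hv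
          rw [Finset.mem_filter]
          refine ⟨hb, ?_⟩
          push Not at hpar
          obtain ⟨p, hp, hpb, hcr⟩ := hpar
          rw [par, Finset.mem_filter]
          exact ⟨Finset.mem_image_of_mem Q hb, Q p, Finset.mem_image_of_mem Q hp,
            fun h => hpb (D.injQ hp hb h), hcr⟩
        · rintro ⟨w', b⟩ hv ⟨w'', b'⟩ hv' hbb
          rw [Finset.mem_filter] at hv hv'
          exact Prod.ext (hv.2.trans hv'.2.symm) hbb
        · intro b hb
          rw [Finset.mem_filter, par, Finset.mem_filter] at hb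
          obtain ⟨hb, _, q, hq, hqb, hcr⟩ := hb
          obtain ⟨p, hp, rfl⟩ := Finset.mem_image.1 hq
          refine ⟨(w, b), ?_, rfl⟩
          rw [Finset.mem_filter, hX2, Finset.mem_filter, hX, Finset.mem_product]
          refine ⟨⟨⟨hw, hb⟩, ?_⟩, rfl⟩
          push Not
          exact ⟨p, hp, fun h => hqb (by rw [h]), hcr⟩
      · rintro ⟨w, b⟩ hv
        rw [Finset.mem_coe, hX2, Finset.mem_filter, hX, Finset.mem_product] at hv
        exact hv.1.1
    rw [h3]
    have h4 : ∑ w ∈ (A.image P).offDiag, (par (B.image Q) (w.2 - w.1)).card =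
        ∑ w ∈ A.offDiag, (par (B.image Q) (P w.2 - P w.1)).card := by
      symm
      refine Finset.sum_bij (fun w _ => (P w.1, P w.2)) ?_ ?_ ?_ ?_
      · intro w hw
        rw [Finset.mem_offDiag] at hw ⊢
        exact ⟨Finset.mem_image_of_mem P hw.1, Finset.mem_image_of_mem P hw.2.1,
          fun h => hw.2.2 (D.injP hw.1 hw.2.1 h)⟩
      · intro w hw w' hw' h
        rw [Finset.mem_offDiag] at hw hw'
        exact Prod.ext (D.injP hw.1 hw'.1 (congrArg Prod.fst h))
          (D.injP hw.2.1 hw'.2.1 (congrArg Prod.snd h))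
      · intro v hv
        rw [Finset.mem_offDiag] at hv
        obtain ⟨x, hx, hx'⟩ := Finset.mem_image.1 hv.1
        obtain ⟨y, hy, hy'⟩ := Finset.mem_image.1 hv.2.1
        refine ⟨(x, y), ?_, Prod.ext hx' hy'⟩
        rw [Finset.mem_offDiag]
        refine ⟨hx, hy, fun h => hv.2.2 ?_⟩
        simp only at h
        rw [← hx', ← hy', h]
      · intro w _
        rfl
    rw [h4]
    refine Finset.sum_le_sum fun w _ => ?_
    refine Finset.card_le_card_of_injOn Q ?_ ?_
    · intro b hb
      rw [Finset.mem_coe, Finset.mem_filter] at hb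
      exact hb.2
    · intro b hb b' hb' h
      rw [Finset.mem_coe, Finset.mem_filter] at hb hb'
      exact D.injQ hb.1 hb'.1 h
  rw [← hXc, ← hsplit]
  exact Nat.add_le_add h1 h2

/- MODULE CB: the triples `{x, y, z}`; all are different. -/

theorem cnt_one {S A B C : Finset Sp} {P Q : Sp → ℝ × ℝ} (D : Dat S A B C P Q) :
    C.card * A.card * B.card ≤ (typ S A B C 1 1 1).card := by
  classical
  obtain ⟨hA, hB, hC⟩ := CA_sub D
  have hXc : (C ×ˢ (A ×ˢ B)).card = C.card * A.card * B.card := by
    rw [Finset.card_product, Finset.card_product, mul_assoc]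
  rw [← hXc, ← one_mul (typ S A B C 1 1 1).card]
  refine Finset.card_le_mul_card_image_of_maps_to
    (f := fun w : Sp × (Sp × Sp) => ({w.2.1, w.2.2, w.1} : Finset Sp)) ?_ 1 ?_
  · rintro ⟨z, x, y⟩ hw
    rw [Finset.mem_product, Finset.mem_product] at hw
    obtain ⟨hz, hx, hy⟩ := hw
    simp only at hz hx hy
    have hxB : x ∉ B := Finset.disjoint_left.1 D.dAB hx
    have hxC : x ∉ C := Finset.disjoint_left.1 D.dAC hx
    have hyC : y ∉ C := Finset.disjoint_left.1 D.dBC hy
    have hyA : y ∉ A := Finset.disjoint_right.1 D.dAB hy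
    have hzA : z ∉ A := Finset.disjoint_right.1 D.dAC hz
    have hzB : z ∉ B := Finset.disjoint_right.1 D.dBC hz
    have hxy : x ≠ y := fun h => hxB (h ▸ hy)
    have hxz : x ≠ z := fun h => hxC (h ▸ hz)
    have hyz : y ≠ z := fun h => hyC (h ▸ hz)
    show ({x, y, z} : Finset Sp) ∈ typ S A B C 1 1 1
    rw [typ, ords, Finset.mem_filter, Finset.mem_filter, Finset.mem_powersetCard]
    refine ⟨⟨⟨?_, ?_⟩, D.ordC x hx y hy z hz⟩, ?_, ?_, ?_⟩
    · intro q hq
      simp only [Finset.mem_insert, Finset.mem_singleton] at hq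
      rcases hq with rfl | rfl | rfl
      · exact hA hx
      · exact hB hy
      · exact hC hz
    · exact Finset.card_eq_three.2 ⟨x, y, z, hxy, hxz, hyz, rfl⟩
    · have h1 : ({x, y, z} : Finset Sp) ∩ A = {x} := by
        ext q
        simp only [Finset.mem_inter, Finset.mem_insert, Finset.mem_singleton]
        constructor
        · rintro ⟨rfl | rfl | rfl, hq⟩
          · rfl
          · exact absurd hq hyA
          · exact absurd hq hzA
        · rintro rfl
          exact ⟨Or.inl rfl, hx⟩
      rw [h1, Finset.card_singleton]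
    · have h1 : ({x, y, z} : Finset Sp) ∩ B = {y} := by
        ext q
        simp only [Finset.mem_inter, Finset.mem_insert, Finset.mem_singleton]
        constructor
        · rintro ⟨rfl | rfl | rfl, hq⟩
          · exact absurd hq hxB
          · rfl
          · exact absurd hq hzB
        · rintro rfl
          exact ⟨Or.inr (Or.inl rfl), hy⟩
      rw [h1, Finset.card_singleton]
    · have h1 : ({x, y, z} : Finset Sp) ∩ C = {z} := by
        ext q
        simp only [Finset.mem_inter, Finset.mem_insert, Finset.mem_singleton]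
        constructor
        · rintro ⟨rfl | rfl | rfl, hq⟩
          · exact absurd hq hxC
          · exact absurd hq hyC
          · rfl
        · rintro rfl
          exact ⟨Or.inr (Or.inr rfl), hz⟩
      rw [h1, Finset.card_singleton]
  · intro T hT
    rw [typ, Finset.mem_filter] at hT
    have h2 : ((C ×ˢ (A ×ˢ B)).filter fun w : Sp × (Sp × Sp) =>
        ({w.2.1, w.2.2, w.1} : Finset Sp) = T) ⊆ (T ∩ C) ×ˢ ((T ∩ A) ×ˢ (T ∩ B)) := by
      rintro ⟨z, x, y⟩ hw
      rw [Finset.mem_filter, Finset.mem_product, Finset.mem_product] at hw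
      obtain ⟨⟨hz, hx, hy⟩, hT'⟩ := hw
      simp only at hz hx hy hT'
      rw [Finset.mem_product, Finset.mem_product]
      subst hT'
      simp only [Finset.mem_inter, Finset.mem_insert, Finset.mem_singleton]
      exact ⟨⟨Or.inr (Or.inr trivial), hz⟩, ⟨Or.inl trivial, hx⟩, Or.inr (Or.inl trivial), hy⟩
    refine (Finset.card_le_card h2).trans ?_
    rw [Finset.card_product, Finset.card_product, hT.2.1, hT.2.2.1, hT.2.2.2]

/- MODULE CC: the two planes themselves, and the total. The types `(2,1,0)`, `(1,2,0)`, `(1,1,1)` are disjoint;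
if `|A| + |C| = 3 = |B| + |C|` and `C ≠ ∅`, then `A ∪ C`, `B ∪ C` are ordinary, different, and of other types. -/

theorem typ_symm (S A B C : Finset Sp) (i j k : ℕ) : typ S A B C i j k = typ S B A C j i k := by
  unfold typ
  refine Finset.filter_congr fun T _ => ?_
  exact ⟨fun h => ⟨h.2.1, h.1, h.2.2⟩, fun h => ⟨h.2.1, h.1, h.2.2⟩⟩

theorem cnt_sum {S A B C : Finset Sp} {P Q : Sp → ℝ × ℝ} (D : Dat S A B C P Q) :
    (typ S A B C 2 1 0).card + (typ S A B C 1 2 0).card + (typ S A B C 1 1 1).card +
      (if A.card + C.card = 3 ∧ B.card + C.card = 3 ∧ C.card ≠ 0 then 2 else 0) ≤ (ords S).card := by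
  classical
  obtain ⟨hA, hB, hC⟩ := CA_sub D
  have hsub : ∀ i j k, typ S A B C i j k ⊆ ords S := fun i j k => Finset.filter_subset _ _
  have hdis : ∀ i j k i' j' k', (i, j, k) ≠ (i', j', k') →
      Disjoint (typ S A B C i j k) (typ S A B C i' j' k') := by
    intro i j k i' j' k' hne
    rw [Finset.disjoint_left]
    intro T h1 h2
    rw [typ, Finset.mem_filter] at h1 h2
    apply hne
    rw [← h1.2.1, ← h1.2.2.1, ← h1.2.2.2, h2.2.1, h2.2.2.1, h2.2.2.2]
  set U := typ S A B C 2 1 0 ∪ typ S A B C 1 2 0 ∪ typ S A B C 1 1 1 with hU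
  have hUc : U.card = (typ S A B C 2 1 0).card + (typ S A B C 1 2 0).card +
      (typ S A B C 1 1 1).card := by
    rw [hU, Finset.card_union_of_disjoint, Finset.card_union_of_disjoint]
    · exact hdis _ _ _ _ _ _ (by decide)
    · rw [Finset.disjoint_union_left]
      exact ⟨hdis _ _ _ _ _ _ (by decide), hdis _ _ _ _ _ _ (by decide)⟩
  have hUs : U ⊆ ords S := Finset.union_subset (Finset.union_subset (hsub _ _ _) (hsub _ _ _))
    (hsub _ _ _)
  rw [← hUc]
  by_cases h : A.card + C.card = 3 ∧ B.card + C.card = 3 ∧ C.card ≠ 0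
  · rw [if_pos h]
    obtain ⟨h1, h2, h3⟩ := h
    have hAC : (A ∪ C).card = 3 := by rw [Finset.card_union_of_disjoint D.dAC, h1]
    have hBC : (B ∪ C).card = 3 := by rw [Finset.card_union_of_disjoint D.dBC, h2]
    have hACB : (A ∪ C) ∩ B = ∅ := by
      rw [← Finset.disjoint_iff_inter_eq_empty, Finset.disjoint_union_left]
      exact ⟨D.dAB, D.dBC.symm⟩
    have hBCA : (B ∪ C) ∩ A = ∅ := by
      rw [← Finset.disjoint_iff_inter_eq_empty, Finset.disjoint_union_left]
      exact ⟨D.dAB.symm, D.dAC.symm⟩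
    have hne : A ∪ C ≠ B ∪ C := by
      intro h4
      obtain ⟨x, hx⟩ := D.neA
      have h5 : x ∈ (B ∪ C) ∩ A := by
        rw [← h4, Finset.mem_inter, Finset.mem_union]
        exact ⟨Or.inl hx, hx⟩
      rw [hBCA] at h5
      exact absurd h5 (Finset.notMem_empty x)
    have hm : ∀ T, (T ∩ A).card = 0 ∨ (T ∩ B).card = 0 → T ∉ U := by
      intro T hT hTU
      rw [hU, Finset.mem_union, Finset.mem_union] at hTU
      simp only [typ, Finset.mem_filter] at hTU
      omega
    have h5 : ({A ∪ C, B ∪ C} : Finset (Finset Sp)) ⊆ ords S := by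
      intro T hT
      rw [Finset.mem_insert, Finset.mem_singleton] at hT
      rw [ords, Finset.mem_filter, Finset.mem_powersetCard]
      rcases hT with rfl | rfl
      · exact ⟨⟨Finset.union_subset hA hC, hAC⟩, D.ordAC⟩
      · exact ⟨⟨Finset.union_subset hB hC, hBC⟩, D.ordBC⟩
    have h6 : Disjoint U ({A ∪ C, B ∪ C} : Finset (Finset Sp)) := by
      rw [Finset.disjoint_right]
      intro T hT
      rw [Finset.mem_insert, Finset.mem_singleton] at hT
      rcases hT with rfl | rfl
      · exact hm _ (Or.inr (by rw [hACB, Finset.card_empty]))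
      · exact hm _ (Or.inl (by rw [hBCA, Finset.card_empty]))
    rw [← Finset.card_pair hne, ← Finset.card_union_of_disjoint h6]
    exact Finset.card_le_card (Finset.union_subset hUs h5)
  · rw [if_neg h, add_zero]
    exact Finset.card_le_card hUs

/-- the theorem, in terms of `ords` -/
theorem main (S : Finset Sp) (hS : ¬ Coplanar ℝ (S : Set Sp))
    (h3 : ∀ T ⊆ S, T.card = 3 → ¬ Collinear ℝ (T : Set Sp)) (U V : Set Sp) (hU : Coplanar ℝ U)
    (hV : Coplanar ℝ V) (hUV : (S : Set Sp) ⊆ U ∪ V) : Bd S.card ((ords S).card : ℝ) := by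
  obtain ⟨A, B, C, P, Q, D⟩ := exists_dat S hS h3 U V hU hV hUV
  have hcard : S.card = A.card + B.card + C.card := by
    rw [← D.union, Finset.card_union_of_disjoint
      (Finset.disjoint_union_left.2 ⟨D.dAC, D.dBC⟩), Finset.card_union_of_disjoint D.dAB]
  have hA : (A.image P).card = A.card := Finset.card_image_of_injOn D.injP
  have hB : (B.image Q).card = B.card := Finset.card_image_of_injOn D.injQ
  have ha : 1 ≤ A.card := D.neA.card_pos
  have hb : 1 ≤ B.card := D.neB.card_pos
  have hn : 4 ≤ A.card + B.card + C.card := by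
    rw [← hcard]
    by_contra hlt
    apply hS
    have h1 : S.card ≤ 3 := by omega
    have h2 : Module.finrank ℝ (vectorSpan ℝ (S : Set Sp)) ≤ 2 := by
      obtain ⟨x, hx⟩ := D.neA
      have hxS : x ∈ S := by
        rw [← D.union]; simp [hx]
      have hne : S.Nonempty := ⟨x, hxS⟩
      have h4 : S.card = (S.card - 1) + 1 := by have := hne.card_pos; omega
      have := finrank_vectorSpan_image_finset_le ℝ (id : Sp → Sp) S h4
      rw [Finset.image_id] at this
      omega
    rw [coplanar_iff_finrank_le_two]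
    exact h2
  set W := quad (A.image P) (B.image Q) with hW
  have h1 : W ≤ 2 * (A.card / 2) * (B.card * (B.card - 1)) := by
    have := quad_one (A := A.image P) (B := B.image Q) D.genA
    rwa [hA, hB] at this
  have h2 : W ≤ 2 * (B.card / 2) * (A.card * (A.card - 1)) := by
    have := quad_one (A := B.image Q) (B := A.image P) D.genB
    rw [hA, hB, quad_comm] at this
    exact this
  have h3' : Even A.card → W ≤ (A.card - 2) * (B.card * (B.card - 1)) + 2 * A.card * (B.card / 2) := by
    intro he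
    have := quad_two (A := A.image P) (B := B.image Q) D.genA D.genB (by rwa [hA])
    rwa [hA, hB] at this
  have h4 : Even B.card → W ≤ (B.card - 2) * (A.card * (A.card - 1)) + 2 * B.card * (A.card / 2) := by
    intro he
    have := quad_two (A := B.image Q) (B := A.image P) D.genB D.genA (by rwa [hB])
    rw [hA, hB, quad_comm] at this
    exact this
  have c1 := cnt_two D
  have c2 := cnt_two D.symm
  rw [← typ_symm S A B C 1 2 0] at c2
  rw [quad_comm] at c1
  have c3 := cnt_one D
  have c4 := cnt_sum D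
  set e : ℕ := if A.card + C.card = 3 ∧ B.card + C.card = 3 ∧ C.card ≠ 0 then 2 else 0 with he
  set a := A.card
  set b := B.card
  set c := C.card
  set t1 := (typ S A B C 2 1 0).card
  set t2 := (typ S A B C 1 2 0).card
  set t3 := (typ S A B C 1 1 1).card
  have d1 : (a : ℝ) * (a - 1) * b ≤ 2 * t1 + W := by
    have : ((a * (a - 1) * b : ℕ) : ℝ) ≤ ((2 * t1 + W : ℕ) : ℝ) := by exact_mod_cast c1
    push_cast [Nat.cast_sub ha] at this
    exact this
  have d2 : (b : ℝ) * (b - 1) * a ≤ 2 * t2 + W := by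
    have : ((b * (b - 1) * a : ℕ) : ℝ) ≤ ((2 * t2 + W : ℕ) : ℝ) := by exact_mod_cast c2
    push_cast [Nat.cast_sub hb] at this
    exact this
  have d3 : (c : ℝ) * a * b ≤ t3 := by exact_mod_cast c3
  have d4 : (t1 : ℝ) + t2 + t3 + e ≤ ((ords S).card : ℝ) := by exact_mod_cast c4
  have hc2 : c ≤ 2 := D.cardC
  rw [hcard]
  rcases Nat.eq_zero_or_pos c with hc0 | hcp
  · rw [hc0, add_zero]
    have he0 : (0 : ℝ) ≤ e := Nat.cast_nonneg _
    have hc0' : (c : ℝ) = 0 := by rw [hc0]; simp
    refine ar_zero a b W _ ha hb (by omega) h1 h2 h3' h4 ?_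
    rw [hc0'] at d3
    nlinarith [d1, d2, d3, d4]
  · refine ar_pos a b c W e _ ha hb (by omega) h1 h2 h3' h4 ?_ hn ?_
    · rintro ⟨e1, e2⟩
      rw [he, if_pos ⟨e1, e2, by omega⟩]
    · nlinarith [d1, d2, d3, d4]

end Pool.Agent.OPl
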