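import Pool.Agent.OPl.Pl

/-! # Ordinary planes of sets in two planes: the reduction to the plane

`S` is a finite set in space, no three points on a line, not in a plane, contained in two planes
`f = 0`, `g = 0`. `A` = points with `f = 0`, `g ≠ 0`; `B` = points with `g = 0`, `f ≠ 0`; `C` = points
with `f = g = 0`. In homogeneous coordinates `(x, 1)` the point `x` of `A` is scaled to
`x̂ = (x, 1) / g x`, the point `y` of `B` to `ŷ = (y, 1) / f y`; differences of points of `Â` (of `B̂`) are in the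
two dimensional space `K = ker f ∩ ker g`, and `κ` is a linear map to `ℝ × ℝ`, injective on `K`. -/

set_option autoImplicit false

namespace Pool.Agent.OPl

/-- space -/
abbrev Sp := EuclideanSpace ℝ (Fin 3)

/-- the plane spanned by `T` contains no point of `S` outside `T` -/
def Ord (S T : Finset Sp) : Prop :=
  ∀ p ∈ S, p ∈ affineSpan ℝ (T : Set Sp) → p ∈ T

/-- affine functions on `Sp`, in the form `⟪u, x⟫ - r` -/
noncomputable def aff (u : Sp) (r : ℝ) (x : Sp) : ℝ := inner ℝ u x - r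

/- MODULE GA: coplanar sets and affine functions. For `exists_aff`: `vectorSpan ℝ s` has dimension `≤ 2`
in a space of dimension `3`, so there is `u ≠ 0` orthogonal to it; `r = ⟪u, x₀⟫` for a point `x₀` of `s` (`s` may be
empty). For `coplanar_aff`: the vector span of `{x | aff u r x = 0}` is in the orthogonal complement of `u`,
of dimension `2`. -/

theorem exists_aff {s : Set Sp} (hs : Coplanar ℝ s) :
    ∃ (u : Sp) (r : ℝ), u ≠ 0 ∧ ∀ x ∈ s, aff u r x = 0 := by
  have h1 : Module.finrank ℝ (vectorSpan ℝ s) ≤ 2 := coplanar_iff_finrank_le_two.1 hs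
  have h2 := (vectorSpan ℝ s).finrank_add_finrank_orthogonal
  rw [finrank_euclideanSpace_fin] at h2
  have h3 : (vectorSpan ℝ s)ᗮ ≠ ⊥ := by
    intro h4
    rw [h4, finrank_bot] at h2
    omega
  obtain ⟨u, hu, hu0⟩ := Submodule.exists_mem_ne_zero_of_ne_bot h3
  rcases s.eq_empty_or_nonempty with rfl | ⟨x₀, hx₀⟩
  · exact ⟨u, 0, hu0, fun x hx => absurd hx (Set.notMem_empty x)⟩
  · refine ⟨u, inner ℝ u x₀, hu0, fun x hx => ?_⟩
    unfold aff
    rw [← inner_sub_right]
    have h4 : x - x₀ ∈ vectorSpan ℝ s := vsub_mem_vectorSpan ℝ hx hx₀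
    exact (Submodule.mem_orthogonal' _ _).1 hu _ h4

theorem coplanar_aff {s : Set Sp} {u : Sp} {r : ℝ} (hu : u ≠ 0) (hs : ∀ x ∈ s, aff u r x = 0) :
    Coplanar ℝ s := by
  rw [coplanar_iff_finrank_le_two]
  have h1 : vectorSpan ℝ s ≤ (ℝ ∙ u)ᗮ := by
    rw [vectorSpan_def, Submodule.span_le]
    rintro _ ⟨x, hx, y, hy, rfl⟩
    show x - y ∈ (ℝ ∙ u)ᗮ
    rw [Submodule.mem_orthogonal_singleton_iff_inner_right, inner_sub_right]
    have h2 := hs x hx
    have h3 := hs y hy
    unfold aff at h2 h3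
    linarith
  have : Fact (Module.finrank ℝ Sp = 2 + 1) := ⟨by rw [finrank_euclideanSpace_fin]⟩
  have h2 : Module.finrank ℝ (ℝ ∙ u)ᗮ = 2 := Submodule.finrank_orthogonal_span_singleton hu
  rw [← h2]
  exact Submodule.finrank_mono h1

/-- `aff u r` is affine: weights with sum one of three points -/
theorem aff_three (u : Sp) (r : ℝ) {x y z p : Sp} {α β γ : ℝ} (h1 : α + β + γ = 1)
    (hp : p = α • x + β • y + γ • z) :
    aff u r p = α * aff u r x + β * aff u r y + γ * aff u r z := by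
  unfold aff
  rw [hp, inner_add_right, inner_add_right, inner_smul_right, inner_smul_right, inner_smul_right]
  linear_combination r * h1

/-- the plane through three points -/
theorem mem_span_three {x y z p : Sp} (h : p ∈ affineSpan ℝ ({x, y, z} : Set Sp)) :
    ∃ α β γ : ℝ, α + β + γ = 1 ∧ p = α • x + β • y + γ • z := by
  rw [← affineSpan_insert_affineSpan,
    AffineSubspace.mem_affineSpan_insert_iff (left_mem_affineSpan_pair ℝ y z)] at h
  obtain ⟨a, q, hq, rfl⟩ := h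
  obtain ⟨b, rfl⟩ := mem_affineSpan_pair_iff_exists_lineMap_eq.1 hq
  refine ⟨a, 1 - b - a, b, by ring, ?_⟩
  rw [AffineMap.lineMap_apply, vadd_eq_add, vadd_eq_add, vsub_eq_sub, vsub_eq_sub]
  module

/-- if `p` is on the line through `x`, `y` then `p`, `x`, `y` are collinear -/
theorem collinear_of_weights {x y p : Sp} {α β : ℝ} (h1 : α + β = 1) (hp : p = α • x + β • y) :
    Collinear ℝ ({p, x, y} : Set Sp) := by
  rw [collinear_iff_of_mem (p₀ := x) (by simp)]
  refine ⟨y - x, ?_⟩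
  intro q hq
  simp only [Set.mem_insert_iff, Set.mem_singleton_iff] at hq
  rcases hq with rfl | rfl | rfl
  · refine ⟨β, ?_⟩
    rw [hp, vadd_eq_add]
    have h2 : α = 1 - β := by linarith
    rw [h2]
    module
  · refine ⟨0, ?_⟩
    rw [vadd_eq_add]
    module
  · refine ⟨1, ?_⟩
    rw [vadd_eq_add]
    module

/- MODULE GB: the linear map `κ`. `K` = all `(x, t)` with `⟪u, x⟫ = r t` and `⟪u', x⟫ = r' t`; if the two functionals
`(x, t) ↦ ⟪u, x⟫ - r t`, `(x, t) ↦ ⟪u', x⟫ - r' t` of the four dimensional space `Sp × ℝ` are independent, then `K`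
has dimension `2`; extend an isomorphism of `K` with `ℝ × ℝ` to a linear map. Independence: `u ≠ 0`, `u' ≠ 0` and
there is a point with `aff u r = 0`, `aff u' r' ≠ 0`. -/

theorem exists_kappa {u u' : Sp} {r r' : ℝ} {x₀ : Sp} (hu : u ≠ 0)
    (h0 : aff u r x₀ = 0) (h0' : aff u' r' x₀ ≠ 0) :
    ∃ κ : (Sp × ℝ) →ₗ[ℝ] (ℝ × ℝ), ∀ v : Sp × ℝ, inner ℝ u v.1 = r * v.2 → inner ℝ u' v.1 = r' * v.2 →
      κ v = 0 → v = 0 := by
  let φ : (Sp × ℝ) →ₗ[ℝ] ℝ :=
    { toFun := fun v => inner ℝ u v.1 - r * v.2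
      map_add' := fun v w => by rw [Prod.fst_add, Prod.snd_add, inner_add_right]; ring
      map_smul' := fun c v => by
        rw [Prod.smul_fst, Prod.smul_snd, inner_smul_right, smul_eq_mul, smul_eq_mul,
          RingHom.id_apply]
        ring }
  let ψ : (Sp × ℝ) →ₗ[ℝ] ℝ :=
    { toFun := fun v => inner ℝ u' v.1 - r' * v.2
      map_add' := fun v w => by rw [Prod.fst_add, Prod.snd_add, inner_add_right]; ring
      map_smul' := fun c v => by
        rw [Prod.smul_fst, Prod.smul_snd, inner_smul_right, smul_eq_mul, smul_eq_mul,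
          RingHom.id_apply]
        ring }
  have hφ : ∀ v, φ v = inner ℝ u v.1 - r * v.2 := fun v => rfl
  have hψ : ∀ v, ψ v = inner ℝ u' v.1 - r' * v.2 := fun v => rfl
  have hsurj : Function.Surjective (φ.prod ψ) := by
    have ha : φ (u, 0) ≠ 0 := by
      rw [hφ, mul_zero, sub_zero]
      exact inner_self_ne_zero.2 hu
    have hb : φ (x₀, 1) = 0 := by
      rw [hφ, mul_one]
      exact h0
    have hc : ψ (x₀, 1) ≠ 0 := by
      rw [hψ, mul_one]
      exact h0'
    rintro ⟨a, b⟩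
    refine ⟨(a / φ (u, 0)) • (u, 0) +
      ((b - (a / φ (u, 0)) * ψ (u, 0)) / ψ (x₀, 1)) • (x₀, 1), ?_⟩
    refine Prod.ext ?_ ?_
    · show φ _ = a
      rw [map_add, map_smul, map_smul, hb, smul_zero, add_zero, smul_eq_mul, div_mul_cancel₀ _ ha]
    · show ψ _ = b
      rw [map_add, map_smul, map_smul, smul_eq_mul, smul_eq_mul, div_mul_cancel₀ _ hc,
        add_sub_cancel]
  have hdim : Module.finrank ℝ (LinearMap.ker (φ.prod ψ)) = 2 := by
    have h1 := LinearMap.finrank_range_add_finrank_ker (φ.prod ψ)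
    rw [LinearMap.range_eq_top.2 hsurj, finrank_top, Module.finrank_prod, Module.finrank_prod,
      finrank_euclideanSpace_fin, Module.finrank_self] at h1
    omega
  have hdim2 : Module.finrank ℝ (ℝ × ℝ) = 2 := by
    rw [Module.finrank_prod, Module.finrank_self]
  let ε : LinearMap.ker (φ.prod ψ) ≃ₗ[ℝ] (ℝ × ℝ) :=
    LinearEquiv.ofFinrankEq _ _ (by rw [hdim, hdim2])
  obtain ⟨κ, hκ⟩ := LinearMap.exists_extend (ε : LinearMap.ker (φ.prod ψ) →ₗ[ℝ] (ℝ × ℝ))
  refine ⟨κ, fun v h1 h2 h3 => ?_⟩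
  have h4 : v ∈ LinearMap.ker (φ.prod ψ) := by
    rw [LinearMap.mem_ker]
    refine Prod.ext ?_ ?_
    · show φ v = 0
      rw [hφ, h1, sub_self]
    · show ψ v = 0
      rw [hψ, h2, sub_self]
  have h5 : ε ⟨v, h4⟩ = κ v := by
    have h6 := LinearMap.congr_fun hκ ⟨v, h4⟩
    exact h6.symm
  rw [h3] at h5
  have h6 := (LinearEquiv.map_eq_zero_iff ε).1 h5
  exact congrArg Subtype.val h6

/-- consequence: parallel images come from parallel vectors -/
theorem kappa_par {u u' : Sp} {r r' : ℝ} {κ : (Sp × ℝ) →ₗ[ℝ] (ℝ × ℝ)}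
    (hκ : ∀ v : Sp × ℝ, inner ℝ u v.1 = r * v.2 → inner ℝ u' v.1 = r' * v.2 → κ v = 0 → v = 0)
    {v w : Sp × ℝ} (hv : inner ℝ u v.1 = r * v.2) (hv' : inner ℝ u' v.1 = r' * v.2)
    (hw : inner ℝ u w.1 = r * w.2) (hw' : inner ℝ u' w.1 = r' * w.2)
    (h : cr (κ v) (κ w) = 0) : ∃ α β : ℝ, (α ≠ 0 ∨ β ≠ 0) ∧ α • v + β • w = 0 := by
  have key : ∀ α β : ℝ, κ (α • v + β • w) = 0 → α • v + β • w = 0 := by
    intro α β h1
    refine hκ _ ?_ ?_ h1
    · rw [Prod.fst_add, Prod.snd_add, Prod.smul_fst, Prod.smul_fst, Prod.smul_snd, Prod.smul_snd,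
        inner_add_right, inner_smul_right, inner_smul_right, hv, hw, smul_eq_mul, smul_eq_mul]
      ring
    · rw [Prod.fst_add, Prod.snd_add, Prod.smul_fst, Prod.smul_fst, Prod.smul_snd, Prod.smul_snd,
        inner_add_right, inner_smul_right, inner_smul_right, hv', hw', smul_eq_mul, smul_eq_mul]
      ring
  unfold cr at h
  by_cases h1 : (κ v).1 = 0
  · by_cases h2 : (κ v).2 = 0
    · refine ⟨1, 0, Or.inl one_ne_zero, key 1 0 ?_⟩
      rw [one_smul, zero_smul, add_zero]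
      exact Prod.ext h1 h2
    · refine ⟨(κ w).2, -(κ v).2, Or.inr (neg_ne_zero.2 h2), key _ _ ?_⟩
      rw [map_add, map_smul, map_smul]
      refine Prod.ext ?_ ?_
      · simp only [Prod.fst_add, Prod.smul_fst, smul_eq_mul, Prod.fst_zero]
        linear_combination h
      · simp only [Prod.snd_add, Prod.smul_snd, smul_eq_mul, Prod.snd_zero]
        ring
  · refine ⟨(κ w).1, -(κ v).1, Or.inr (neg_ne_zero.2 h1), key _ _ ?_⟩
    rw [map_add, map_smul, map_smul]
    refine Prod.ext ?_ ?_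
    · simp only [Prod.fst_add, Prod.smul_fst, smul_eq_mul, Prod.fst_zero]
      ring
    · simp only [Prod.snd_add, Prod.smul_snd, smul_eq_mul, Prod.snd_zero]
      linear_combination -h

/-- the scaled homogeneous coordinates of a point, mapped by `κ` -/
noncomputable def pt (κ : (Sp × ℝ) →ₗ[ℝ] (ℝ × ℝ)) (u : Sp) (r : ℝ) (x : Sp) : ℝ × ℝ :=
  κ ((aff u r x)⁻¹ • (x, (1 : ℝ)))

/- MODULE GC: the points of one plane. `f = aff u r` vanishes on the points, `g = aff u' r'` does not, and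
`pt κ u' r'` is injective and keeps the absence of collinear triples. -/

private theorem GC_u {u u' : Sp} {r r' : ℝ} {x y : Sp} (hx : aff u r x = 0) (hy : aff u r y = 0) :
    inner ℝ u ((aff u' r' x)⁻¹ • (x, (1 : ℝ)) - (aff u' r' y)⁻¹ • (y, (1 : ℝ))).1 =
      r * ((aff u' r' x)⁻¹ • (x, (1 : ℝ)) - (aff u' r' y)⁻¹ • (y, (1 : ℝ))).2 := by
  simp only [Prod.fst_sub, Prod.snd_sub, Prod.smul_fst, Prod.smul_snd, smul_eq_mul, mul_one,
    inner_sub_right, inner_smul_right]
  unfold aff at hx hy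
  linear_combination (aff u' r' x)⁻¹ * hx - (aff u' r' y)⁻¹ * hy

private theorem GC_v {u' : Sp} {r' : ℝ} {x y : Sp} (hx' : aff u' r' x ≠ 0)
    (hy' : aff u' r' y ≠ 0) :
    inner ℝ u' ((aff u' r' x)⁻¹ • (x, (1 : ℝ)) - (aff u' r' y)⁻¹ • (y, (1 : ℝ))).1 =
      r' * ((aff u' r' x)⁻¹ • (x, (1 : ℝ)) - (aff u' r' y)⁻¹ • (y, (1 : ℝ))).2 := by
  simp only [Prod.fst_sub, Prod.snd_sub, Prod.smul_fst, Prod.smul_snd, smul_eq_mul, mul_one,
    inner_sub_right, inner_smul_right]
  have h1 : inner ℝ u' x = aff u' r' x + r' := by unfold aff; ring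
  have h2 : inner ℝ u' y = aff u' r' y + r' := by unfold aff; ring
  rw [h1, h2, mul_add, mul_add, inv_mul_cancel₀ hx', inv_mul_cancel₀ hy']
  ring

theorem pt_inj {u u' : Sp} {r r' : ℝ} {κ : (Sp × ℝ) →ₗ[ℝ] (ℝ × ℝ)}
    (hκ : ∀ v : Sp × ℝ, inner ℝ u v.1 = r * v.2 → inner ℝ u' v.1 = r' * v.2 → κ v = 0 → v = 0)
    {x y : Sp} (hx : aff u r x = 0) (hy : aff u r y = 0) (hx' : aff u' r' x ≠ 0)
    (hy' : aff u' r' y ≠ 0) (h : pt κ u' r' x = pt κ u' r' y) : x = y := by
  have h1 := hκ ((aff u' r' x)⁻¹ • (x, (1 : ℝ)) - (aff u' r' y)⁻¹ • (y, (1 : ℝ)))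
    (GC_u hx hy) (GC_v hx' hy') (by
      rw [map_sub]
      exact sub_eq_zero.2 h)
  have h2 : (aff u' r' x)⁻¹ = (aff u' r' y)⁻¹ := by
    have h3 := congrArg Prod.snd h1
    simp only [Prod.snd_sub, Prod.smul_snd, smul_eq_mul, mul_one, Prod.snd_zero] at h3
    exact sub_eq_zero.1 h3
  have h3 := congrArg Prod.fst h1
  simp only [Prod.fst_sub, Prod.smul_fst, Prod.fst_zero] at h3
  rw [h2, ← smul_sub] at h3
  rcases smul_eq_zero.1 h3 with h4 | h4
  · exact absurd h4 (inv_ne_zero hy')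
  · exact sub_eq_zero.1 h4

theorem pt_gen {u u' : Sp} {r r' : ℝ} {κ : (Sp × ℝ) →ₗ[ℝ] (ℝ × ℝ)}
    (hκ : ∀ v : Sp × ℝ, inner ℝ u v.1 = r * v.2 → inner ℝ u' v.1 = r' * v.2 → κ v = 0 → v = 0)
    {x y z : Sp} (hx : aff u r x = 0) (hy : aff u r y = 0) (hz : aff u r z = 0)
    (hx' : aff u' r' x ≠ 0) (hy' : aff u' r' y ≠ 0) (hz' : aff u' r' z ≠ 0)
    (hcol : ¬ Collinear ℝ ({x, y, z} : Set Sp)) :
    cr (pt κ u' r' y - pt κ u' r' x) (pt κ u' r' z - pt κ u' r' x) ≠ 0 := by
  intro h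
  have hpt : ∀ a b : Sp, pt κ u' r' b - pt κ u' r' a =
      κ ((aff u' r' b)⁻¹ • (b, (1 : ℝ)) - (aff u' r' a)⁻¹ • (a, (1 : ℝ))) := by
    intro a b
    rw [map_sub]
    rfl
  rw [hpt, hpt] at h
  obtain ⟨α, β, hne, hz0⟩ := kappa_par hκ (GC_u hy hx) (GC_v hy' hx') (GC_u hz hx) (GC_v hz' hx') h
  have h1 := congrArg Prod.fst hz0
  have h2 := congrArg Prod.snd hz0
  simp only [Prod.fst_add, Prod.snd_add, Prod.smul_fst, Prod.smul_snd, Prod.fst_sub, Prod.snd_sub,
    smul_eq_mul, mul_one, Prod.fst_zero, Prod.snd_zero] at h1 h2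
  rcases hne with hα | hβ
  · have hA : α * (aff u' r' y)⁻¹ ≠ 0 := mul_ne_zero hα (inv_ne_zero hy')
    have h3 : Collinear ℝ ({y, z, x} : Set Sp) := by
      refine collinear_of_weights (α := -(β * (aff u' r' z)⁻¹) / (α * (aff u' r' y)⁻¹))
        (β := ((α + β) * (aff u' r' x)⁻¹) / (α * (aff u' r' y)⁻¹)) ?_ ?_
      · rw [← add_div, div_eq_one_iff_eq hA]
        linear_combination -h2
      · have h4 : (α * (aff u' r' y)⁻¹) • y = (-(β * (aff u' r' z)⁻¹)) • z +
            ((α + β) * (aff u' r' x)⁻¹) • x := by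
          have h5 : (α * (aff u' r' y)⁻¹) • y - ((-(β * (aff u' r' z)⁻¹)) • z +
            ((α + β) * (aff u' r' x)⁻¹) • x) = 0 := by
            rw [← h1]
            module
          exact sub_eq_zero.1 h5
        have h6 : y = (α * (aff u' r' y)⁻¹)⁻¹ • ((α * (aff u' r' y)⁻¹) • y) := by
          rw [smul_smul, inv_mul_cancel₀ hA, one_smul]
        conv_lhs => rw [h6, h4, smul_add, smul_smul, smul_smul]
        rw [div_eq_inv_mul, div_eq_inv_mul]
    apply hcol
    have h7 : ({x, y, z} : Set Sp) = {y, z, x} := by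
      ext q
      simp only [Set.mem_insert_iff, Set.mem_singleton_iff]
      tauto
    rw [h7]
    exact h3
  · have hA : β * (aff u' r' z)⁻¹ ≠ 0 := mul_ne_zero hβ (inv_ne_zero hz')
    have h3 : Collinear ℝ ({z, y, x} : Set Sp) := by
      refine collinear_of_weights (α := -(α * (aff u' r' y)⁻¹) / (β * (aff u' r' z)⁻¹))
        (β := ((α + β) * (aff u' r' x)⁻¹) / (β * (aff u' r' z)⁻¹)) ?_ ?_
      · rw [← add_div, div_eq_one_iff_eq hA]
        linear_combination -h2
      · have h4 : (β * (aff u' r' z)⁻¹) • z = (-(α * (aff u' r' y)⁻¹)) • y +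
            ((α + β) * (aff u' r' x)⁻¹) • x := by
          have h5 : (β * (aff u' r' z)⁻¹) • z - ((-(α * (aff u' r' y)⁻¹)) • y +
            ((α + β) * (aff u' r' x)⁻¹) • x) = 0 := by
            rw [← h1]
            module
          exact sub_eq_zero.1 h5
        have h6 : z = (β * (aff u' r' z)⁻¹)⁻¹ • ((β * (aff u' r' z)⁻¹) • z) := by
          rw [smul_smul, inv_mul_cancel₀ hA, one_smul]
        conv_lhs => rw [h6, h4, smul_add, smul_smul, smul_smul]
        rw [div_eq_inv_mul, div_eq_inv_mul]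
    apply hcol
    have h7 : ({x, y, z} : Set Sp) = {z, y, x} := by
      ext q
      simp only [Set.mem_insert_iff, Set.mem_singleton_iff]
      tauto
    rw [h7]
    exact h3

/- MODULE GD: four points in a plane: `x`, `y` with `f = 0`, `g ≠ 0`; `b`, `p` with `g = 0`, `f ≠ 0`; if `p` is in
the plane of `x`, `y`, `b`, then the two differences are parallel: `p = α x + β y + γ b`, `g p = 0` gives
`α g x + β g y = 0`, `f p = γ f b`, and `(p,1)/f p - (b,1)/f b = (α g x / f p) ((x,1)/g x - (y,1)/g y)`. -/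

theorem pt_four {u u' : Sp} {r r' : ℝ} (κ : (Sp × ℝ) →ₗ[ℝ] (ℝ × ℝ))
    {x y b p : Sp} (hx : aff u r x = 0) (hy : aff u r y = 0)
    (hx' : aff u' r' x ≠ 0) (hy' : aff u' r' y ≠ 0)
    (hb : aff u r b ≠ 0) (hb' : aff u' r' b = 0) (hp : aff u r p ≠ 0) (hp' : aff u' r' p = 0)
    (h : p ∈ affineSpan ℝ ({x, y, b} : Set Sp)) :
    cr (pt κ u r p - pt κ u r b) (pt κ u' r' y - pt κ u' r' x) = 0 := by
  obtain ⟨α, β, γ, h1, hpw⟩ := mem_span_three h
  have hf := aff_three u r h1 hpw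
  have hg := aff_three u' r' h1 hpw
  rw [hx, hy, mul_zero, mul_zero, zero_add, zero_add] at hf
  rw [hp', hb', mul_zero, add_zero] at hg
  have hγ : γ * (aff u r p)⁻¹ = (aff u r b)⁻¹ := by
    rw [hf, mul_inv, ← mul_assoc, mul_inv_cancel₀, one_mul]
    intro h2
    rw [h2, zero_mul] at hf
    exact hp hf
  have hv : (aff u r p)⁻¹ • (p, (1 : ℝ)) - (aff u r b)⁻¹ • (b, (1 : ℝ)) =
      (-(α * aff u' r' x * (aff u r p)⁻¹)) •
        ((aff u' r' y)⁻¹ • (y, (1 : ℝ)) - (aff u' r' x)⁻¹ • (x, (1 : ℝ))) := by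
    have hβ : β = -(α * aff u' r' x) * (aff u' r' y)⁻¹ := by
      rw [eq_mul_inv_iff_mul_eq₀ hy']
      linarith
    have hp1 : (p, (1 : ℝ)) = α • (x, (1 : ℝ)) + β • (y, (1 : ℝ)) + γ • (b, (1 : ℝ)) := by
      refine Prod.ext ?_ ?_
      · simp only [Prod.fst_add, Prod.smul_fst]
        exact hpw
      · simp only [Prod.snd_add, Prod.smul_snd, smul_eq_mul, mul_one]
        exact h1.symm
    rw [hp1, smul_add, smul_add, smul_smul, smul_smul, smul_smul, mul_comm _ γ, hγ,
      add_sub_cancel_right, smul_sub, smul_smul, smul_smul]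
    have e1 : -(α * aff u' r' x * (aff u r p)⁻¹) * (aff u' r' x)⁻¹ = -((aff u r p)⁻¹ * α) := by
      field_simp
    have e2 : (aff u r p)⁻¹ * β = -(α * aff u' r' x * (aff u r p)⁻¹) * (aff u' r' y)⁻¹ := by
      rw [hβ]
      ring
    rw [e1, e2, neg_smul ((aff u r p)⁻¹ * α), sub_neg_eq_add, add_comm]
  have hpt : ∀ (w : Sp) (s : ℝ) (a b : Sp), pt κ w s b - pt κ w s a =
      κ ((aff w s b)⁻¹ • (b, (1 : ℝ)) - (aff w s a)⁻¹ • (a, (1 : ℝ))) := by
    intro w s a b
    rw [map_sub]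
    rfl
  rw [hpt, hpt, hv, map_smul]
  unfold cr
  simp only [Prod.smul_fst, Prod.smul_snd, smul_eq_mul]
  ring

/-- everything the count needs: `A`, `B`, `C` are the parts of `S`, `P`, `Q` the plane coordinates -/
structure Dat (S A B C : Finset Sp) (P Q : Sp → ℝ × ℝ) : Prop where
  union : A ∪ B ∪ C = S
  dAB : Disjoint A B
  dAC : Disjoint A C
  dBC : Disjoint B C
  neA : A.Nonempty
  neB : B.Nonempty
  cardC : C.card ≤ 2
  injP : Set.InjOn P A
  injQ : Set.InjOn Q B
  genA : Gen (A.image P)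
  genB : Gen (B.image Q)
  ordA : ∀ x ∈ A, ∀ y ∈ A, x ≠ y → ∀ b ∈ B, (∀ p ∈ B, p ≠ b → cr (Q p - Q b) (P y - P x) ≠ 0) →
    Ord S {x, y, b}
  ordB : ∀ x ∈ B, ∀ y ∈ B, x ≠ y → ∀ a ∈ A, (∀ p ∈ A, p ≠ a → cr (P p - P a) (Q y - Q x) ≠ 0) →
    Ord S {x, y, a}
  ordC : ∀ x ∈ A, ∀ y ∈ B, ∀ z ∈ C, Ord S {x, y, z}
  ordAC : Ord S (A ∪ C)
  ordBC : Ord S (B ∪ C)

/- MODULE GE: the existence of the data, from the modules above. `C.card ≤ 2`: three points of `C` would be
collinear (the common line `f = g = 0`), for instance because with a point `x` of `A` and a point `y` of `B` the five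
points ... or by the injective linear map `κ` on the differences: `(x, 1) - (x', 1)` is in `K` with second coordinate
`0`, a space of dimension `1`. -/

private theorem ge_aff_span (u : Sp) (r : ℝ) {s : Set Sp} (hs : ∀ x ∈ s, aff u r x = 0) {p : Sp}
    (hp : p ∈ affineSpan ℝ s) : aff u r p = 0 := by
  refine affineSpan_induction (p := fun x => aff u r x = 0) hp hs ?_
  intro c a b w ha hb hw
  unfold aff at *
  rw [vsub_eq_sub, vadd_eq_add, inner_add_right, inner_smul_right, inner_sub_right]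
  have h1 : inner ℝ u a = r := by linarith
  have h2 : inner ℝ u b = r := by linarith
  rw [h1, h2]
  linarith

private theorem ge_crid (a b c : ℝ × ℝ) : cr b c • a + cr c a • b + cr a b • c = 0 := by
  ext
  · simp only [cr, Prod.fst_add, Prod.smul_fst, smul_eq_mul, Prod.fst_zero]; ring
  · simp only [cr, Prod.snd_add, Prod.smul_snd, smul_eq_mul, Prod.snd_zero]; ring

private theorem ge_three {u u' : Sp} {r r' : ℝ} {κ : (Sp × ℝ) →ₗ[ℝ] (ℝ × ℝ)}
    (hκ : ∀ v : Sp × ℝ, inner ℝ u v.1 = r * v.2 → inner ℝ u' v.1 = r' * v.2 → κ v = 0 → v = 0)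
    {x y z : Sp} (hx : aff u r x = 0) (hy : aff u r y = 0) (hz : aff u r z = 0)
    (hx' : aff u' r' x = 0) (hy' : aff u' r' y = 0) (hz' : aff u' r' z = 0) (hxy : x ≠ y) :
    Collinear ℝ ({z, x, y} : Set Sp) := by
  unfold aff at *
  have k1 : inner ℝ u x = r := by linarith
  have k2 : inner ℝ u y = r := by linarith
  have k3 : inner ℝ u z = r := by linarith
  have k1' : inner ℝ u' x = r' := by linarith
  have k2' : inner ℝ u' y = r' := by linarith
  have k3' : inner ℝ u' z = r' := by linarith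
  set X : Sp × ℝ := (x, 1) with hX
  set Y : Sp × ℝ := (y, 1) with hY
  set Z : Sp × ℝ := (z, 1) with hZ
  have hg : cr (κ X) (κ Y) ≠ 0 := by
    intro h0
    obtain ⟨α, β, hne, hab⟩ := kappa_par hκ (v := X) (w := Y) (by simp [hX, k1]) (by simp [hX, k1'])
      (by simp [hY, k2]) (by simp [hY, k2']) h0
    have e2 : α + β = 0 := by
      have := congrArg Prod.snd hab
      simpa [hX, hY] using this
    have e1 : α • x + β • y = 0 := by
      have := congrArg Prod.fst hab
      simpa [hX, hY] using this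
    have hb : β = -α := by linarith
    rw [hb, neg_smul, ← sub_eq_add_neg, ← smul_sub] at e1
    rcases smul_eq_zero.1 e1 with h | h
    · rcases hne with h' | h'
      · exact h' h
      · exact h' (by rw [hb, h, neg_zero])
    · exact hxy (sub_eq_zero.1 h)
  set α := cr (κ Y) (κ Z) with hα
  set β := cr (κ Z) (κ X) with hβ
  set γ := cr (κ X) (κ Y) with hγ
  have hsum : α • X + β • Y + γ • Z = 0 := by
    apply hκ
    · simp only [hX, hY, hZ, Prod.fst_add, Prod.smul_fst, Prod.snd_add, Prod.smul_snd, inner_add_right,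
        inner_smul_right, smul_eq_mul, k1, k2, k3]
      ring
    · simp only [hX, hY, hZ, Prod.fst_add, Prod.smul_fst, Prod.snd_add, Prod.smul_snd, inner_add_right,
        inner_smul_right, smul_eq_mul, k1', k2', k3']
      ring
    · rw [map_add, map_add, map_smul, map_smul, map_smul]
      exact ge_crid _ _ _
  have s2 : α + β + γ = 0 := by
    have := congrArg Prod.snd hsum
    simpa [hX, hY, hZ] using this
  have s1 : α • x + β • y + γ • z = 0 := by
    have := congrArg Prod.fst hsum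
    simpa [hX, hY, hZ] using this
  refine collinear_of_weights (α := -(α / γ)) (β := -(β / γ)) ?_ ?_
  · field_simp
    linarith
  · have h1 : γ • z = -(α • x + β • y) := by
      rw [eq_neg_iff_add_eq_zero, add_comm]
      exact s1
    have h2 : z = γ⁻¹ • (γ • z) := by rw [smul_smul, inv_mul_cancel₀ hg, one_smul]
    rw [h2, h1, smul_neg, smul_add, smul_smul, smul_smul, neg_add, ← neg_smul, ← neg_smul]
    congr 2
    · congr 1; rw [div_eq_inv_mul]
    · congr 1; rw [div_eq_inv_mul]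

theorem exists_dat (S : Finset Sp) (hS : ¬ Coplanar ℝ (S : Set Sp))
    (h3 : ∀ T ⊆ S, T.card = 3 → ¬ Collinear ℝ (T : Set Sp)) (U V : Set Sp) (hU : Coplanar ℝ U)
    (hV : Coplanar ℝ V) (hUV : (S : Set Sp) ⊆ U ∪ V) :
    ∃ (A B C : Finset Sp) (P Q : Sp → ℝ × ℝ), Dat S A B C P Q := by
  classical
  obtain ⟨u, r, hu, hUf⟩ := exists_aff hU
  obtain ⟨u', r', hu', hVf⟩ := exists_aff hV
  have hcov : ∀ x ∈ S, aff u r x = 0 ∨ aff u' r' x = 0 := by
    intro x hx
    rcases hUV (Finset.mem_coe.2 hx) with h | h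
    · exact Or.inl (hUf x h)
    · exact Or.inr (hVf x h)
  obtain ⟨x₁, hx₁, hx₁'⟩ : ∃ x ∈ S, aff u' r' x ≠ 0 := by
    by_contra hcon
    push Not at hcon
    exact hS (coplanar_aff hu' fun x hx => hcon x (Finset.mem_coe.1 hx))
  obtain ⟨x₂, hx₂, hx₂'⟩ : ∃ x ∈ S, aff u r x ≠ 0 := by
    by_contra hcon
    push Not at hcon
    exact hS (coplanar_aff hu fun x hx => hcon x (Finset.mem_coe.1 hx))
  have hx₁0 : aff u r x₁ = 0 := (hcov x₁ hx₁).resolve_right hx₁'
  have hx₂0 : aff u' r' x₂ = 0 := (hcov x₂ hx₂).resolve_left hx₂'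
  obtain ⟨κ, hκ⟩ := exists_kappa (u := u) (u' := u') (r := r) (r' := r') hu hx₁0 hx₁'
  have hκ' : ∀ v : Sp × ℝ, inner ℝ u' v.1 = r' * v.2 → inner ℝ u v.1 = r * v.2 → κ v = 0 → v = 0 :=
    fun v h1 h2 => hκ v h2 h1
  -- three different points are not collinear
  have hcol : ∀ x ∈ S, ∀ y ∈ S, ∀ z ∈ S, x ≠ y → x ≠ z → y ≠ z → ¬ Collinear ℝ ({x, y, z} : Set Sp) := by
    intro x hx y hy z hz hxy hxz hyz hc
    refine h3 {x, y, z} ?_ (Finset.card_eq_three.2 ⟨x, y, z, hxy, hxz, hyz, rfl⟩) ?_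
    · intro w hw
      simp only [Finset.mem_insert, Finset.mem_singleton] at hw
      rcases hw with rfl | rfl | rfl
      · exact hx
      · exact hy
      · exact hz
    · simpa using hc
  -- a point on the line of two points is one of them
  have hline : ∀ x ∈ S, ∀ y ∈ S, ∀ p ∈ S, x ≠ y → ∀ α β : ℝ, α + β = 1 → p = α • x + β • y →
      p = x ∨ p = y := by
    intro x hx y hy p hp hxy α β h1 h2
    by_contra hcon
    push Not at hcon
    exact hcol p hp x hx y hy hcon.1 hcon.2 hxy (collinear_of_weights h1 h2)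
  set A := S.filter fun x => aff u r x = 0 ∧ aff u' r' x ≠ 0 with hA
  set B := S.filter fun x => aff u' r' x = 0 ∧ aff u r x ≠ 0 with hB
  set C := S.filter fun x => aff u r x = 0 ∧ aff u' r' x = 0 with hC
  have mA : ∀ x, x ∈ A ↔ x ∈ S ∧ aff u r x = 0 ∧ aff u' r' x ≠ 0 := fun x => by
    rw [hA, Finset.mem_filter]
  have mB : ∀ x, x ∈ B ↔ x ∈ S ∧ aff u' r' x = 0 ∧ aff u r x ≠ 0 := fun x => by
    rw [hB, Finset.mem_filter]
  have mC : ∀ x, x ∈ C ↔ x ∈ S ∧ aff u r x = 0 ∧ aff u' r' x = 0 := fun x => by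
    rw [hC, Finset.mem_filter]
  refine ⟨A, B, C, pt κ u' r', pt κ u r, ?_⟩
  refine
    { union := ?_, dAB := ?_, dAC := ?_, dBC := ?_, neA := ⟨x₁, (mA _).2 ⟨hx₁, hx₁0, hx₁'⟩⟩,
      neB := ⟨x₂, (mB _).2 ⟨hx₂, hx₂0, hx₂'⟩⟩, cardC := ?_, injP := ?_, injQ := ?_, genA := ?_,
      genB := ?_, ordA := ?_, ordB := ?_, ordC := ?_, ordAC := ?_, ordBC := ?_ }
  · ext x
    rw [Finset.mem_union, Finset.mem_union, mA, mB, mC]
    constructor
    · rintro ((h | h) | h)
      · exact h.1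
      · exact h.1
      · exact h.1
    · intro hx
      by_cases h1 : aff u r x = 0
      · by_cases h2 : aff u' r' x = 0
        · exact Or.inr ⟨hx, h1, h2⟩
        · exact Or.inl (Or.inl ⟨hx, h1, h2⟩)
      · exact Or.inl (Or.inr ⟨hx, (hcov x hx).resolve_left h1, h1⟩)
  · rw [Finset.disjoint_left]
    intro x h1 h2
    exact ((mB _).1 h2).2.2 ((mA _).1 h1).2.1
  · rw [Finset.disjoint_left]
    intro x h1 h2
    exact ((mA _).1 h1).2.2 ((mC _).1 h2).2.2
  · rw [Finset.disjoint_left]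
    intro x h1 h2
    exact ((mB _).1 h1).2.2 ((mC _).1 h2).2.1
  · by_contra hcon
    push Not at hcon
    obtain ⟨x, y, z, hx, hy, hz, hxy, hxz, hyz⟩ := Finset.two_lt_card_iff.1 hcon
    have hx := (mC _).1 hx
    have hy := (mC _).1 hy
    have hz := (mC _).1 hz
    exact hcol z hz.1 x hx.1 y hy.1 hxz.symm hyz.symm hxy
      (ge_three hκ hx.2.1 hy.2.1 hz.2.1 hx.2.2 hy.2.2 hz.2.2 hxy)
  · intro x hx y hy hxy
    have hx := (mA _).1 (Finset.mem_coe.1 hx)
    have hy := (mA _).1 (Finset.mem_coe.1 hy)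
    exact pt_inj hκ hx.2.1 hy.2.1 hx.2.2 hy.2.2 hxy
  · intro x hx y hy hxy
    have hx := (mB _).1 (Finset.mem_coe.1 hx)
    have hy := (mB _).1 (Finset.mem_coe.1 hy)
    exact pt_inj hκ' hx.2.1 hy.2.1 hx.2.2 hy.2.2 hxy
  · intro x hx y hy z hz hxy hxz hyz
    obtain ⟨x, hx', rfl⟩ := Finset.mem_image.1 hx
    obtain ⟨y, hy', rfl⟩ := Finset.mem_image.1 hy
    obtain ⟨z, hz', rfl⟩ := Finset.mem_image.1 hz
    have hx := (mA _).1 hx'
    have hy := (mA _).1 hy'
    have hz := (mA _).1 hz'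
    exact pt_gen hκ hx.2.1 hy.2.1 hz.2.1 hx.2.2 hy.2.2 hz.2.2
      (hcol x hx.1 y hy.1 z hz.1 (fun h => hxy (by rw [h])) (fun h => hxz (by rw [h]))
        (fun h => hyz (by rw [h])))
  · intro x hx y hy z hz hxy hxz hyz
    obtain ⟨x, hx', rfl⟩ := Finset.mem_image.1 hx
    obtain ⟨y, hy', rfl⟩ := Finset.mem_image.1 hy
    obtain ⟨z, hz', rfl⟩ := Finset.mem_image.1 hz
    have hx := (mB _).1 hx'
    have hy := (mB _).1 hy'
    have hz := (mB _).1 hz'
    exact pt_gen hκ' hx.2.1 hy.2.1 hz.2.1 hx.2.2 hy.2.2 hz.2.2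
      (hcol x hx.1 y hy.1 z hz.1 (fun h => hxy (by rw [h])) (fun h => hxz (by rw [h]))
        (fun h => hyz (by rw [h])))
  · intro x hx y hy hxy b hb hnp p hp hps
    have hx := (mA _).1 hx
    have hy := (mA _).1 hy
    have hb := (mB _).1 hb
    rw [Finset.coe_insert, Finset.coe_insert, Finset.coe_singleton] at hps
    obtain ⟨α, β, γ, h1, h2⟩ := mem_span_three hps
    have hf := aff_three u r h1 h2
    rw [hx.2.1, hy.2.1] at hf
    simp only [Finset.mem_insert, Finset.mem_singleton]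
    by_cases hfp : aff u r p = 0
    · have hγ : γ = 0 := by
        rw [hfp] at hf
        have : γ * aff u r b = 0 := by linarith
        exact (mul_eq_zero.1 this).resolve_right hb.2.2
      rw [hγ, add_zero] at h1
      rw [hγ, zero_smul, add_zero] at h2
      rcases hline x hx.1 y hy.1 p hp hxy α β h1 h2 with h | h
      · exact Or.inl h
      · exact Or.inr (Or.inl h)
    · by_cases hpb : p = b
      · exact Or.inr (Or.inr hpb)
      · exact absurd (pt_four κ hx.2.1 hy.2.1 hx.2.2 hy.2.2 hb.2.2 hb.2.1 hfp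
          ((hcov p hp).resolve_left hfp) hps)
          (hnp p ((mB _).2 ⟨hp, (hcov p hp).resolve_left hfp, hfp⟩) hpb)
  · intro x hx y hy hxy b hb hnp p hp hps
    have hx := (mB _).1 hx
    have hy := (mB _).1 hy
    have hb := (mA _).1 hb
    rw [Finset.coe_insert, Finset.coe_insert, Finset.coe_singleton] at hps
    obtain ⟨α, β, γ, h1, h2⟩ := mem_span_three hps
    have hf := aff_three u' r' h1 h2
    rw [hx.2.1, hy.2.1] at hf
    simp only [Finset.mem_insert, Finset.mem_singleton]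
    by_cases hfp : aff u' r' p = 0
    · have hγ : γ = 0 := by
        rw [hfp] at hf
        have : γ * aff u' r' b = 0 := by linarith
        exact (mul_eq_zero.1 this).resolve_right hb.2.2
      rw [hγ, add_zero] at h1
      rw [hγ, zero_smul, add_zero] at h2
      rcases hline x hx.1 y hy.1 p hp hxy α β h1 h2 with h | h
      · exact Or.inl h
      · exact Or.inr (Or.inl h)
    · by_cases hpb : p = b
      · exact Or.inr (Or.inr hpb)
      · exact absurd (pt_four κ hx.2.1 hy.2.1 hx.2.2 hy.2.2 hb.2.2 hb.2.1 hfp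
          ((hcov p hp).resolve_right hfp) hps)
          (hnp p ((mA _).2 ⟨hp, (hcov p hp).resolve_right hfp, hfp⟩) hpb)
  · intro x hx y hy z hz p hp hps
    have hx := (mA _).1 hx
    have hy := (mB _).1 hy
    have hz := (mC _).1 hz
    rw [Finset.coe_insert, Finset.coe_insert, Finset.coe_singleton] at hps
    obtain ⟨α, β, γ, h1, h2⟩ := mem_span_three hps
    have hf := aff_three u r h1 h2
    have hg := aff_three u' r' h1 h2
    rw [hx.2.1, hz.2.1] at hf
    rw [hy.2.1, hz.2.2] at hg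
    simp only [Finset.mem_insert, Finset.mem_singleton]
    have hxz : x ≠ z := fun h => hx.2.2 (h ▸ hz.2.2)
    have hyz : y ≠ z := fun h => hy.2.2 (h ▸ hz.2.1)
    by_cases hfp : aff u r p = 0
    · have hβ : β = 0 := by
        rw [hfp] at hf
        have : β * aff u r y = 0 := by linarith
        exact (mul_eq_zero.1 this).resolve_right hy.2.2
      rw [hβ, add_zero] at h1
      rw [hβ, zero_smul, add_zero] at h2
      rcases hline x hx.1 z hz.1 p hp hxz α γ h1 h2 with h | h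
      · exact Or.inl h
      · exact Or.inr (Or.inr h)
    · have hgp := (hcov p hp).resolve_left hfp
      have hα : α = 0 := by
        rw [hgp] at hg
        have : α * aff u' r' x = 0 := by linarith
        exact (mul_eq_zero.1 this).resolve_right hx.2.2
      rw [hα, zero_add] at h1
      rw [hα, zero_smul, zero_add] at h2
      rcases hline y hy.1 z hz.1 p hp hyz β γ h1 h2 with h | h
      · exact Or.inr (Or.inl h)
      · exact Or.inr (Or.inr h)
  · intro p hp hps
    have hf : aff u r p = 0 := ge_aff_span u r (fun x hx => by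
      rcases Finset.mem_union.1 (Finset.mem_coe.1 hx) with h | h
      · exact ((mA _).1 h).2.1
      · exact ((mC _).1 h).2.1) hps
    rw [Finset.mem_union, mA, mC]
    by_cases hg : aff u' r' p = 0
    · exact Or.inr ⟨hp, hf, hg⟩
    · exact Or.inl ⟨hp, hf, hg⟩
  · intro p hp hps
    have hg : aff u' r' p = 0 := ge_aff_span u' r' (fun x hx => by
      rcases Finset.mem_union.1 (Finset.mem_coe.1 hx) with h | h
      · exact ((mB _).1 h).2.1
      · exact ((mC _).1 h).2.2) hps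
    rw [Finset.mem_union, mB, mC]
    by_cases hf : aff u r p = 0
    · exact Or.inr ⟨hp, hf, hg⟩
    · exact Or.inl ⟨hp, hg, hf⟩

end Pool.Agent.OPl
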