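import Mathlib

/-! # Ordinary planes of sets in two planes: the planar combinatorics

`A`, `B` are finite sets in the plane `ℝ × ℝ` with no three points on a line. For a vector `v ≠ 0`
every point of `A` has at most one partner `y` in `A` with `y - x` parallel to `v`.
-/

set_option autoImplicit false

namespace Pool.Agent.OPl

open scoped BigOperators

/-- the determinant of two vectors -/
def cr (u v : ℝ × ℝ) : ℝ := u.1 * v.2 - u.2 * v.1

/-- no three points of `A` are on a line -/
def Gen (A : Finset (ℝ × ℝ)) : Prop :=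
  ∀ x ∈ A, ∀ y ∈ A, ∀ z ∈ A, x ≠ y → x ≠ z → y ≠ z → cr (y - x) (z - x) ≠ 0

open Classical in
/-- the points of `A` which have a partner in `A` in the direction `v` -/
noncomputable def par (A : Finset (ℝ × ℝ)) (v : ℝ × ℝ) : Finset (ℝ × ℝ) :=
  A.filter fun x => ∃ y ∈ A, y ≠ x ∧ cr (y - x) v = 0

open Classical in
/-- four times the number of parallel pairs of pairs -/
noncomputable def quad (A B : Finset (ℝ × ℝ)) : ℕ :=
  ((A.offDiag ×ˢ B.offDiag).filter fun w => cr (w.1.2 - w.1.1) (w.2.2 - w.2.1) = 0).card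

/- MODULE PA: partners.
`partner_unique`: `y - x`, `z - x` are both parallel to `v ≠ 0`, so `cr (y - x) (z - x) = 0`, so `y = z`.
`par_even`: the partner map is an involution of `par A v` without fixed points (for instance
`Finset.sum_involution` for `∑ x ∈ par A v, (1 : ZMod 2) = 0`). -/

theorem cr_par {u v w : ℝ × ℝ} (hw : w ≠ 0) (hu : cr u w = 0) (hv : cr v w = 0) : cr u v = 0 := by
  unfold cr at *
  have h1 : w.1 * (u.1 * v.2 - u.2 * v.1) = 0 := by linear_combination v.1 * hu - u.1 * hv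
  have h2 : w.2 * (u.1 * v.2 - u.2 * v.1) = 0 := by linear_combination v.2 * hu - u.2 * hv
  rcases mul_eq_zero.mp h1 with h | h
  · rcases mul_eq_zero.mp h2 with h' | h'
    · exact absurd (Prod.ext h h') hw
    · exact h'
  · exact h

theorem partner_unique {A : Finset (ℝ × ℝ)} (hA : Gen A) {v : ℝ × ℝ} (hv : v ≠ 0)
    {x y z : ℝ × ℝ} (hx : x ∈ A) (hy : y ∈ A) (hz : z ∈ A) (hxy : y ≠ x) (hxz : z ≠ x)
    (h1 : cr (y - x) v = 0) (h2 : cr (z - x) v = 0) : y = z := by
  by_contra hyz
  exact hA x hx y hy z hz hxy.symm hxz.symm hyz (cr_par hv h1 h2)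

private theorem PA_inv {α : Type*} (s : Finset α) (g : ∀ a ∈ s, α) (h1 : ∀ a ha, g a ha ≠ a)
    (h2 : ∀ a ha, g a ha ∈ s) (h3 : ∀ a ha, g (g a ha) (h2 a ha) = a) : Even s.card := by
  have h := Finset.sum_involution (f := fun _ : α => (1 : ZMod 2)) g
    (fun a ha => by decide) (fun a ha _ => h1 a ha) h2 h3
  rw [Finset.sum_const, nsmul_eq_mul, mul_one] at h
  exact (ZMod.natCast_eq_zero_iff_even).mp h

theorem par_even {A : Finset (ℝ × ℝ)} (hA : Gen A) {v : ℝ × ℝ} (hv : v ≠ 0) :
    Even (par A v).card := by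
  classical
  have hex : ∀ x ∈ par A v, ∃ y ∈ A, y ≠ x ∧ cr (y - x) v = 0 := fun x hx =>
    (Finset.mem_filter.mp hx).2
  have hA' : ∀ x ∈ par A v, x ∈ A := fun x hx => (Finset.mem_filter.mp hx).1
  have hsym : ∀ x y : ℝ × ℝ, cr (y - x) v = 0 → cr (x - y) v = 0 := by
    intro x y h
    unfold cr at *
    simp only [Prod.fst_sub, Prod.snd_sub] at *
    linarith
  choose! g hg1 hg2 hg3 using hex
  have hg4 : ∀ x ∈ par A v, g x ∈ par A v := fun x hx =>
    Finset.mem_filter.mpr ⟨hg1 x hx, x, hA' x hx, (hg2 x hx).symm, hsym _ _ (hg3 x hx)⟩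
  refine PA_inv (par A v) (fun x _ => g x) (fun x hx => hg2 x hx) hg4 fun x hx => ?_
  have h := hg4 x hx
  exact partner_unique hA hv (hg1 x hx) (hg1 _ h) (hA' x hx) (hg2 _ h) (hg2 x hx).symm (hg3 _ h)
    (hsym _ _ (hg3 x hx))

/- MODULE PB: if `v` is a perfect direction (every point has a partner), then for every `p` in `A` the
number of points of `A` strictly on one side of the line through `p` in the direction `v` is even
(the partner of such a point is on the same side: `cr v (y - p) = cr v (x - p)` for partners). -/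

private theorem PB_inv {α : Type*} (s : Finset α) (g : ∀ a ∈ s, α) (h1 : ∀ a ha, g a ha ≠ a)
    (h2 : ∀ a ha, g a ha ∈ s) (h3 : ∀ a ha, g (g a ha) (h2 a ha) = a) : Even s.card := by
  have h := Finset.sum_involution (f := fun _ : α => (1 : ZMod 2)) g
    (fun a ha => by decide) (fun a ha _ => h1 a ha) h2 h3
  rw [Finset.sum_const, nsmul_eq_mul, mul_one] at h
  exact (ZMod.natCast_eq_zero_iff_even).mp h

open Classical in
theorem side_even {A : Finset (ℝ × ℝ)} (hA : Gen A) {v : ℝ × ℝ} (hv : v ≠ 0) (hperf : par A v = A)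
    (p : ℝ × ℝ) : Even (A.filter fun r => 0 < cr v (r - p)).card := by
  have hex : ∀ x ∈ A, ∃ y ∈ A, y ≠ x ∧ cr (y - x) v = 0 := fun x hx => by
    rw [← hperf] at hx
    exact (Finset.mem_filter.mp hx).2
  have hsym : ∀ x y : ℝ × ℝ, cr (y - x) v = 0 → cr (x - y) v = 0 := by
    intro x y h
    unfold cr at *
    simp only [Prod.fst_sub, Prod.snd_sub] at *
    linarith
  have hside : ∀ x y : ℝ × ℝ, cr (y - x) v = 0 → cr v (y - p) = cr v (x - p) := by
    intro x y h
    unfold cr at *
    simp only [Prod.fst_sub, Prod.snd_sub] at *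
    linarith
  choose! g hg1 hg2 hg3 using hex
  set s := A.filter fun r => 0 < cr v (r - p) with hs
  have hsA : ∀ x ∈ s, x ∈ A := fun x hx => (Finset.mem_filter.mp hx).1
  have hg4 : ∀ x ∈ s, g x ∈ s := fun x hx => by
    refine Finset.mem_filter.mpr ⟨hg1 x (hsA x hx), ?_⟩
    rw [hside x (g x) (hg3 x (hsA x hx))]
    exact (Finset.mem_filter.mp hx).2
  refine PB_inv s (fun x _ => g x) (fun x hx => hg2 x (hsA x hx)) hg4 fun x hx => ?_
  have hx' := hsA x hx
  have h := hg1 x hx'
  exact partner_unique hA hv (hg1 x hx') (hg1 _ h) hx' (hg2 _ h) (hg2 x hx').symm (hg3 _ h)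
    (hsym _ _ (hg3 x hx'))

/- MODULE PC: at most `|A| / 2` directions are perfect. Let `p` be the lexicographically smallest point
of `A` (smallest `x.1`, then smallest `x.2`). For `q` in `A`, `q ≠ p`, put `v = q - p`, so that
`0 < v.1` or (`v.1 = 0` and `0 < v.2`), and `L q` = number of `r` in `A` with `0 < cr (q - p) (r - p)`.
For `q ≠ q'` one has `cr (q - p) (q' - p) ≠ 0` (`Gen`), and if it is `> 0`, then
`0 < cr (q' - p) (r - p)` implies `0 < cr (q - p) (r - p)` (all three vectors are in the half plane: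
`v.1 (cr u w) = w.1 (cr u v) + u.1 (cr v w)`, care if first coordinates are `0`), and `q'` itself is
counted in `L q`, not in `L q'`; so `L` is injective on `A \ {p}`. If `par A (q - p) = A`, then
`L q` is even (`side_even`) and `L q ≤ |A| - 2` (`p`, `q` are not counted). So the perfect `q` are
at most `|A| / 2` in number. -/

private theorem PC_trans {u v w : ℝ × ℝ} (hu : 0 < u.1 ∨ (u.1 = 0 ∧ 0 < u.2))
    (hv : 0 < v.1 ∨ (v.1 = 0 ∧ 0 < v.2)) (hw : 0 < w.1 ∨ (w.1 = 0 ∧ 0 < w.2))
    (h1 : 0 < cr u v) (h2 : 0 < cr v w) : 0 < cr u w := by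
  unfold cr at *
  have hid : v.1 * (u.1 * w.2 - u.2 * w.1) = w.1 * (u.1 * v.2 - u.2 * v.1) +
      u.1 * (v.1 * w.2 - v.2 * w.1) := by ring
  have hw0 : 0 ≤ w.1 := by rcases hw with h | h <;> [exact h.le; exact h.1.ge]
  rcases hv with hv | ⟨hv1, hv2⟩
  · rcases hu with hu | ⟨hu1, hu2⟩
    · have h3 : 0 < v.1 * (u.1 * w.2 - u.2 * w.1) := by
        rw [hid]
        have h4 := mul_nonneg hw0 h1.le
        have h5 := mul_pos hu h2
        linarith
      exact (mul_pos_iff_of_pos_left hv).mp h3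
    · exfalso
      rw [hu1] at h1
      have := mul_pos hu2 hv
      linarith
  · exfalso
    rw [hv1] at h2
    have := mul_nonneg hv2.le hw0
    linarith

open Classical in
theorem perf_card {A : Finset (ℝ × ℝ)} (hA : Gen A) (hne : A.Nonempty) :
    ∃ p ∈ A, (A.filter fun q => q ≠ p ∧ par A (q - p) = A).card ≤ A.card / 2 := by
  obtain ⟨p, hp, hmin⟩ := Finset.exists_min_image A (fun x => toLex x) hne
  refine ⟨p, hp, ?_⟩
  have hpos : ∀ q ∈ A, q ≠ p → 0 < (q - p).1 ∨ ((q - p).1 = 0 ∧ 0 < (q - p).2) := by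
    intro q hq hqp
    have h := hmin q hq
    rw [Prod.Lex.toLex_le_toLex] at h
    simp only [Prod.fst_sub, Prod.snd_sub]
    rcases h with h | ⟨h1, h2⟩
    · exact Or.inl (sub_pos.mpr h)
    · right
      refine ⟨by rw [h1, sub_self], ?_⟩
      rcases h2.lt_or_eq with h3 | h3
      · exact sub_pos.mpr h3
      · exact absurd (Prod.ext h1.symm h3.symm) hqp
  have hself : ∀ u : ℝ × ℝ, cr u u = 0 := fun u => by unfold cr; ring
  set L : ℝ × ℝ → ℕ := fun q => (A.filter fun r => 0 < cr (q - p) (r - p)).card with hL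
  have hlt : ∀ q ∈ A, ∀ q' ∈ A, q ≠ p → q' ≠ p → 0 < cr (q - p) (q' - p) → L q' < L q := by
    intro q hq q' hq' hqp hqp' hc
    refine Finset.card_lt_card ⟨fun r hr => ?_, fun hsub => ?_⟩
    · rw [Finset.mem_filter] at hr ⊢
      refine ⟨hr.1, ?_⟩
      have hrp : r ≠ p := by
        rintro rfl
        have := hr.2
        unfold cr at this
        simp at this
      exact PC_trans (hpos q hq hqp) (hpos q' hq' hqp') (hpos r hr.1 hrp) hc hr.2
    · have h1 : q' ∈ A.filter fun r => 0 < cr (q - p) (r - p) := Finset.mem_filter.mpr ⟨hq', hc⟩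
      have h2 := (Finset.mem_filter.mp (hsub h1)).2
      rw [hself] at h2
      exact lt_irrefl _ h2
  have hinj : ∀ q ∈ A, ∀ q' ∈ A, q ≠ p → q' ≠ p → L q = L q' → q = q' := by
    intro q hq q' hq' hqp hqp' hLL
    by_contra hqq
    have hne0 := hA p hp q hq q' hq' hqp.symm hqp'.symm hqq
    rcases lt_or_gt_of_ne hne0 with h | h
    · have h' : 0 < cr (q' - p) (q - p) := by
        unfold cr at *
        linarith
      have := hlt q' hq' q hq hqp' hqp h'
      omega
    · have := hlt q hq q' hq' hqp hqp' h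
      omega
  have hbound : ∀ q ∈ A, q ≠ p → L q + 2 ≤ A.card := by
    intro q hq hqp
    have h1 : (A.filter fun r => 0 < cr (q - p) (r - p)) ⊆ (A.erase p).erase q := by
      intro r hr
      rw [Finset.mem_filter] at hr
      rw [Finset.mem_erase, Finset.mem_erase]
      refine ⟨?_, ?_, hr.1⟩
      · rintro rfl
        have := hr.2
        rw [hself] at this
        exact lt_irrefl _ this
      · rintro rfl
        have := hr.2
        unfold cr at this
        simp at this
    have h2 := Finset.card_le_card h1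
    have h3 : q ∈ A.erase p := Finset.mem_erase.mpr ⟨hqp, hq⟩
    have h4 := Finset.card_erase_add_one h3
    have h5 := Finset.card_erase_add_one hp
    have h6 : L q ≤ ((A.erase p).erase q).card := h2
    omega
  have hev : ∀ q ∈ A, q ≠ p → par A (q - p) = A → Even (L q) := fun q _ hqp hper =>
    side_even hA (sub_ne_zero.mpr hqp) hper p
  have hcard := Finset.card_le_card_of_injOn
    (s := A.filter fun q => q ≠ p ∧ par A (q - p) = A) (t := Finset.range (A.card / 2))
    (fun q => L q / 2) (fun q hq => by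
      have hq' := Finset.mem_filter.mp (Finset.mem_coe.mp hq)
      have h1 := hbound q hq'.1 hq'.2.1
      rw [Finset.mem_coe, Finset.mem_range]
      change L q / 2 < A.card / 2
      omega) (fun q hq q' hq' hqq => by
      have h1 := Finset.mem_filter.mp (Finset.mem_coe.mp hq)
      have h2 := Finset.mem_filter.mp (Finset.mem_coe.mp hq')
      obtain ⟨a, ha⟩ := hev q h1.1 h1.2.1 h1.2.2
      obtain ⟨b, hb⟩ := hev q' h2.1 h2.2.1 h2.2.2
      refine hinj q h1.1 q' h2.1 h1.2.1 h2.2.1 ?_
      simp only at hqq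
      omega)
  rw [Finset.card_range] at hcard
  exact hcard

/- MODULE PD: the double count. `quad` is symmetric, and `quad A B = ∑ (x, y) in B.offDiag, |par A (y - x)|`
since a point of `par A (y - x)` has exactly one partner. -/

theorem cr_comm (u v : ℝ × ℝ) : cr u v = - cr v u := by
  unfold cr
  ring

theorem quad_comm (A B : Finset (ℝ × ℝ)) : quad A B = quad B A := by
  classical
  unfold quad
  have hh : ∀ X Y : Finset (ℝ × ℝ), ∀ w ∈ (X.offDiag ×ˢ Y.offDiag).filter
      (fun w => cr (w.1.2 - w.1.1) (w.2.2 - w.2.1) = 0), w.swap ∈ (Y.offDiag ×ˢ X.offDiag).filter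
      (fun w => cr (w.1.2 - w.1.1) (w.2.2 - w.2.1) = 0) := by
    intro X Y w hw
    rw [Finset.mem_filter, Finset.mem_product] at hw ⊢
    refine ⟨⟨hw.1.2, hw.1.1⟩, ?_⟩
    rw [cr_comm]
    simp only [Prod.fst_swap, Prod.snd_swap]
    rw [hw.2, neg_zero]
  exact Finset.card_nbij' Prod.swap Prod.swap (hh A B) (hh B A) (fun w _ => Prod.swap_swap w)
    (fun w _ => Prod.swap_swap w)

theorem quad_eq {A B : Finset (ℝ × ℝ)} (hA : Gen A) :
    quad A B = ∑ w ∈ B.offDiag, (par A (w.2 - w.1)).card := by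
  classical
  unfold quad
  rw [Finset.card_filter, Finset.sum_product_right]
  refine Finset.sum_congr rfl fun w hw => ?_
  have hv : w.2 - w.1 ≠ 0 := sub_ne_zero.mpr (Finset.mem_offDiag.mp hw).2.2.symm
  rw [← Finset.card_filter (fun x : (ℝ × ℝ) × (ℝ × ℝ) => cr (x.2 - x.1) (w.2 - w.1) = 0)]
  refine Finset.card_bij (fun x _ => x.1) ?_ ?_ ?_
  · intro x hx
    rw [Finset.mem_filter, Finset.mem_offDiag] at hx
    exact Finset.mem_filter.mpr ⟨hx.1.1, x.2, hx.1.2.1, hx.1.2.2.symm, hx.2⟩
  · intro x hx y hy hxy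
    rw [Finset.mem_filter, Finset.mem_offDiag] at hx hy
    refine Prod.ext hxy ?_
    have h1 : cr (y.2 - x.1) (w.2 - w.1) = 0 := by rw [hxy]; exact hy.2
    have h2 : y.2 ≠ x.1 := by rw [hxy]; exact hy.1.2.2.symm
    exact partner_unique hA hv hx.1.1 hx.1.2.1 hy.1.2.1 hx.1.2.2.symm h2 hx.2 h1
  · intro x hx
    obtain ⟨hxA, y, hy, hyx, hc⟩ := Finset.mem_filter.mp hx
    exact ⟨(x, y), Finset.mem_filter.mpr ⟨Finset.mem_offDiag.mpr ⟨hxA, hy, hyx.symm⟩, hc⟩, rfl⟩

/- MODULE PE: the bounds. `par A v` has an even number of elements, at most `|A|`; for `quad_two` use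
`quad_eq hA`: the summand is `|A|` if `par A (y - x) = A` and `≤ |A| - 2` otherwise, and with `p` from
`perf_card` every perfect `(x, y)` has a `q ≠ p` in `A` with `q - p` parallel to `y - x`, so
`par A (q - p) = A` (`par` only depends on the direction); for every such `q` the number of
`(x, y)` in `B.offDiag` parallel to `q - p` is `|par B (q - p)| ≤ 2 (|B| / 2)`. -/

private theorem PE_le {A : Finset (ℝ × ℝ)} (hA : Gen A) {v : ℝ × ℝ} (hv : v ≠ 0) :
    (par A v).card ≤ 2 * (A.card / 2) := by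
  classical
  obtain ⟨a, ha⟩ := par_even hA hv
  have h1 : (par A v).card ≤ A.card := Finset.card_le_card (Finset.filter_subset _ _)
  omega

private theorem PE_off (B : Finset (ℝ × ℝ)) : B.offDiag.card = B.card * (B.card - 1) := by
  classical
  rw [Finset.offDiag_card, Nat.mul_sub_one]

theorem quad_one {A B : Finset (ℝ × ℝ)} (hA : Gen A) :
    quad A B ≤ 2 * (A.card / 2) * (B.card * (B.card - 1)) := by
  classical
  rw [quad_eq hA, ← PE_off B, mul_comm, ← smul_eq_mul, ← Finset.sum_const]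
  exact Finset.sum_le_sum fun w hw =>
    PE_le hA (sub_ne_zero.mpr (Finset.mem_offDiag.mp hw).2.2.symm)

theorem quad_two {A B : Finset (ℝ × ℝ)} (hA : Gen A) (hB : Gen B) (he : Even A.card) :
    quad A B ≤ (A.card - 2) * (B.card * (B.card - 1)) + 2 * A.card * (B.card / 2) := by
  classical
  obtain ⟨m, hm⟩ := he
  rcases A.eq_empty_or_nonempty with hA0 | hA0
  · rw [quad_eq hA, hA0]
    refine le_trans (le_of_eq (Finset.sum_eq_zero fun w _ => ?_)) (Nat.zero_le _)
    unfold par
    rw [Finset.filter_empty, Finset.card_empty]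
  have hApos : 0 < A.card := Finset.card_pos.mpr hA0
  obtain ⟨p, hp, hperf⟩ := perf_card hA hA0
  -- the perfect pairs
  set W := B.offDiag.filter (fun w => par A (w.2 - w.1) = A) with hW
  set Q := A.filter (fun q => q ≠ p ∧ par A (q - p) = A) with hQ
  have h1 : quad A B ≤ (A.card - 2) * B.offDiag.card + 2 * W.card := by
    rw [quad_eq hA]
    have h2 : ∀ w ∈ B.offDiag, (par A (w.2 - w.1)).card ≤
        (A.card - 2) + 2 * (if par A (w.2 - w.1) = A then 1 else 0) := by
      intro w hw
      have hv : w.2 - w.1 ≠ 0 := sub_ne_zero.mpr (Finset.mem_offDiag.mp hw).2.2.symm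
      have hle : (par A (w.2 - w.1)).card ≤ A.card := Finset.card_le_card (Finset.filter_subset _ _)
      split_ifs with h
      · omega
      · have hlt : (par A (w.2 - w.1)).card < A.card :=
          Finset.card_lt_card ((Finset.filter_subset _ _).ssubset_of_ne h)
        obtain ⟨a, ha⟩ := par_even hA hv
        omega
    refine (Finset.sum_le_sum h2).trans (le_of_eq ?_)
    rw [Finset.sum_add_distrib, Finset.sum_const, smul_eq_mul, ← Finset.mul_sum, hW,
      Finset.card_filter, mul_comm (B.offDiag.card)]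
  have h3 : W.card ≤ ∑ q ∈ Q, (par B (q - p)).card := by
    have hsub : W ⊆ Q.biUnion (fun q => B.offDiag.filter fun w => cr (q - p) (w.2 - w.1) = 0) := by
      intro w hw
      obtain ⟨hwB, hwp⟩ := Finset.mem_filter.mp hw
      have hv : w.2 - w.1 ≠ 0 := sub_ne_zero.mpr (Finset.mem_offDiag.mp hwB).2.2.symm
      have hp' : p ∈ par A (w.2 - w.1) := by rw [hwp]; exact hp
      obtain ⟨_, q, hq, hqp, hc⟩ := Finset.mem_filter.mp hp'
      have hqp0 : q - p ≠ 0 := sub_ne_zero.mpr hqp
      have hc' : cr (w.2 - w.1) (q - p) = 0 := by rw [cr_comm, hc, neg_zero]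
      rw [Finset.mem_biUnion]
      refine ⟨q, Finset.mem_filter.mpr ⟨hq, hqp, ?_⟩, Finset.mem_filter.mpr ⟨hwB, hc⟩⟩
      -- par only depends on the direction
      refine Finset.Subset.antisymm (Finset.filter_subset _ _) fun x hx => ?_
      have hx' : x ∈ par A (w.2 - w.1) := by rw [hwp]; exact hx
      obtain ⟨hxA, y, hy, hyx, hcy⟩ := Finset.mem_filter.mp hx'
      exact Finset.mem_filter.mpr ⟨hxA, y, hy, hyx, cr_par hv hcy hc⟩
    refine (Finset.card_le_card hsub).trans (Finset.card_biUnion_le.trans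
      (Finset.sum_le_sum fun q hq => le_of_eq ?_))
    have hqp : q - p ≠ 0 := sub_ne_zero.mpr (Finset.mem_filter.mp hq).2.1
    refine Finset.card_bij (fun x _ => x.1) ?_ ?_ ?_
    · intro x hx
      rw [Finset.mem_filter, Finset.mem_offDiag] at hx
      exact Finset.mem_filter.mpr ⟨hx.1.1, x.2, hx.1.2.1, hx.1.2.2.symm, by
        rw [cr_comm, hx.2, neg_zero]⟩
    · intro x hx y hy hxy
      rw [Finset.mem_filter, Finset.mem_offDiag] at hx hy
      refine Prod.ext hxy ?_
      have h1 : cr (y.2 - x.1) (q - p) = 0 := by rw [hxy, cr_comm, hy.2, neg_zero]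
      have h2 : y.2 ≠ x.1 := by rw [hxy]; exact hy.1.2.2.symm
      exact partner_unique hB hqp hx.1.1 hx.1.2.1 hy.1.2.1 hx.1.2.2.symm h2
        (by rw [cr_comm, hx.2, neg_zero]) h1
    · intro x hx
      obtain ⟨hxA, y, hy, hyx, hc⟩ := Finset.mem_filter.mp hx
      exact ⟨(x, y), Finset.mem_filter.mpr ⟨Finset.mem_offDiag.mpr ⟨hxA, hy, hyx.symm⟩, by
        rw [cr_comm, hc, neg_zero]⟩, rfl⟩
  have h4 : ∑ q ∈ Q, (par B (q - p)).card ≤ (A.card / 2) * (2 * (B.card / 2)) := by
    refine (Finset.sum_le_sum (g := fun _ => 2 * (B.card / 2)) fun q hq =>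
      PE_le hB (sub_ne_zero.mpr (Finset.mem_filter.mp hq).2.1)).trans ?_
    rw [Finset.sum_const, smul_eq_mul]
    exact Nat.mul_le_mul_right _ hperf
  rw [PE_off] at h1
  have h5 : 2 * ((A.card / 2) * (2 * (B.card / 2))) = 2 * A.card * (B.card / 2) := by
    have : 2 * (A.card / 2) = A.card := by omega
    calc 2 * ((A.card / 2) * (2 * (B.card / 2))) = 2 * (2 * (A.card / 2)) * (B.card / 2) := by ring
      _ = 2 * A.card * (B.card / 2) := by rw [this]
  have h6 : 2 * W.card ≤ 2 * A.card * (B.card / 2) := by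
    rw [← h5]
    exact Nat.mul_le_mul_left 2 (h3.trans h4)
  omega

end Pool.Agent.OPl
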