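import Pool.Agent.OPl.Cnt

/-! # Ordinary planes of sets with a rich plane

`S` a finite set in space, no three points on a line; a plane `f = 0` contains `m` of the points, `r ≥ 1` are
outside. Then there are at least `r (m choose 2) - r (r - 1) ⌊m / 2⌋` ordinary planes. -/

set_option autoImplicit false

namespace Pool.Agent.OPl

open scoped BigOperators

open Classical in
/-- the ordered pairs `(x, y)` of `A` whose plane with `q` contains `q'` -/
noncomputable def badp (A : Finset Sp) (q q' : Sp) : Finset (Sp × Sp) :=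
  A.offDiag.filter fun w => q' ∈ affineSpan ℝ ({w.1, w.2, q} : Set Sp)

theorem mem_badp {A : Finset Sp} {q q' : Sp} {w : Sp × Sp} : w ∈ badp A q q' ↔
    (w.1 ∈ A ∧ w.2 ∈ A ∧ w.1 ≠ w.2) ∧ q' ∈ affineSpan ℝ ({w.1, w.2, q} : Set Sp) := by
  classical
  unfold badp
  rw [Finset.mem_filter, Finset.mem_offDiag]

theorem badp_swap {A : Finset Sp} {q q' : Sp} {w : Sp × Sp} (h : w ∈ badp A q q') :
    (w.2, w.1) ∈ badp A q q' := by
  rw [mem_badp] at h ⊢
  refine ⟨⟨h.1.2.1, h.1.1, h.1.2.2.symm⟩, ?_⟩
  rw [Set.insert_comm]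
  exact h.2

/-- the second point is determined by the first -/
theorem badp_unique {A : Finset Sp} {u : Sp} {r : ℝ} (hA : ∀ x ∈ A, aff u r x = 0)
    (hcol : ∀ x ∈ A, ∀ y ∈ A, ∀ z ∈ A, x ≠ y → x ≠ z → y ≠ z → ¬ Collinear ℝ ({x, y, z} : Set Sp))
    {q q' : Sp} (hq : aff u r q ≠ 0)
    (hqx : ∀ x ∈ A, ¬ Collinear ℝ ({q', x, q} : Set Sp))
    {x y y' : Sp} (h : (x, y) ∈ badp A q q') (h' : (x, y') ∈ badp A q q') : y = y' := by
  rw [mem_badp] at h h'
  obtain ⟨⟨hx, hy, hxy⟩, hs⟩ := h
  obtain ⟨⟨-, hy', hxy'⟩, hs'⟩ := h'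
  simp only at hx hy hxy hs hy' hxy' hs'
  by_contra hne
  obtain ⟨α, β, γ, h1, h2⟩ := mem_span_three hs
  obtain ⟨α', β', γ', h1', h2'⟩ := mem_span_three hs'
  have f1 := aff_three u r h1 h2
  have f2 := aff_three u r h1' h2'
  rw [hA x hx, hA y hy] at f1
  rw [hA x hx, hA y' hy'] at f2
  have hγ : γ = γ' := by
    have : γ * aff u r q = γ' * aff u r q := by linarith
    exact mul_right_cancel₀ hq this
  subst hγ
  have hβ : β ≠ 0 := by
    intro h0
    rw [h0, add_zero] at h1
    rw [h0, zero_smul, add_zero] at h2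
    exact hqx x hx (collinear_of_weights h1 h2)
  have hβ' : β' ≠ 0 := by
    intro h0
    rw [h0, add_zero] at h1'
    rw [h0, zero_smul, add_zero] at h2'
    exact hqx x hx (collinear_of_weights h1' h2')
  -- `β (y - x) = β' (y' - x)`
  have e1 : β • (y - x) = β' • (y' - x) := by
    have e2 : α • x + β • y = α' • x + β' • y' := by
      have : α • x + β • y + γ • q = α' • x + β' • y' + γ • q := by rw [← h2, ← h2']
      exact add_right_cancel this
    have e3 : α = 1 - γ - β := by linarith
    have e4 : α' = 1 - γ - β' := by linarith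
    rw [e3, e4] at e2
    rw [smul_sub, smul_sub]
    have e5 : (1 - γ - β) • x = (1 - γ) • x - β • x := by rw [sub_smul]
    have e6 : (1 - γ - β') • x = (1 - γ) • x - β' • x := by rw [sub_smul]
    rw [e5, e6] at e2
    have : β • y - β • x = ((1 - γ) • x - β • x + β • y) - (1 - γ) • x := by abel
    rw [this, e2]
    abel
  have e7 : y = (1 - β⁻¹ * β') • x + (β⁻¹ * β') • y' := by
    have e8 : y - x = (β⁻¹ * β') • (y' - x) := by
      rw [mul_smul, ← e1, smul_smul, inv_mul_cancel₀ hβ, one_smul]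
    rw [smul_sub] at e8
    rw [sub_smul, one_smul]
    have : y = (y - x) + x := by abel
    rw [this, e8]
    abel
  exact hcol y hy x hx y' hy' hxy.symm hne hxy' (collinear_of_weights (by ring) e7)

theorem badp_card {A : Finset Sp} {u : Sp} {r : ℝ} (hA : ∀ x ∈ A, aff u r x = 0)
    (hcol : ∀ x ∈ A, ∀ y ∈ A, ∀ z ∈ A, x ≠ y → x ≠ z → y ≠ z → ¬ Collinear ℝ ({x, y, z} : Set Sp))
    {q q' : Sp} (hq : aff u r q ≠ 0)
    (hqx : ∀ x ∈ A, ¬ Collinear ℝ ({q', x, q} : Set Sp)) :
    (badp A q q').card ≤ 2 * (A.card / 2) := by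
  classical
  have hinj : Set.InjOn Prod.fst (badp A q q' : Set (Sp × Sp)) := by
    rintro ⟨x, y⟩ h ⟨x', y'⟩ h' hxx
    simp only at hxx
    subst hxx
    rw [badp_unique hA hcol hq hqx (Finset.mem_coe.1 h) (Finset.mem_coe.1 h')]
  have hle : (badp A q q').card ≤ A.card := by
    rw [← Finset.card_image_of_injOn hinj]
    apply Finset.card_le_card
    intro x hx
    obtain ⟨w, hw, rfl⟩ := Finset.mem_image.1 hx
    exact (mem_badp.1 hw).1.1
  have hev : Even (badp A q q').card := by
    have h0 : ∑ w ∈ badp A q q', (1 : ZMod 2) = 0 := by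
      refine Finset.sum_involution (fun w _ => (w.2, w.1)) ?_ ?_ ?_ ?_
      · intro w _
        decide
      · intro w hw _ he
        exact (mem_badp.1 hw).1.2.2 (congrArg Prod.fst he).symm
      · intro w hw
        exact badp_swap hw
      · intro w hw
        rfl
    rw [Finset.sum_const, nsmul_one] at h0
    rw [even_iff_two_dvd]
    exact (ZMod.natCast_eq_zero_iff _ _).1 h0
  obtain ⟨k, hk⟩ := hev
  omega

open Classical in
/-- **The count for a plane.** -/
theorem rich (S : Finset Sp) (h3 : ∀ T ⊆ S, T.card = 3 → ¬ Collinear ℝ (T : Set Sp))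
    (u : Sp) (r : ℝ) (A B : Finset Sp) (hA : A = S.filter fun x => aff u r x = 0)
    (hB : B = S.filter fun x => aff u r x ≠ 0) :
    A.card * (A.card - 1) * B.card ≤
      2 * (ords S).card + B.card * (B.card - 1) * (2 * (A.card / 2)) := by
  have hcol : ∀ x ∈ S, ∀ y ∈ S, ∀ z ∈ S, x ≠ y → x ≠ z → y ≠ z → ¬ Collinear ℝ ({x, y, z} : Set Sp) := by
    intro x hx y hy z hz hxy hxz hyz hc
    refine h3 {x, y, z} ?_ (Finset.card_eq_three.2 ⟨x, y, z, hxy, hxz, hyz, rfl⟩) ?_
    · intro w hw
      simp only [Finset.mem_insert, Finset.mem_singleton] at hw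
      rcases hw with rfl | rfl | rfl
      · exact hx
      · exact hy
      · exact hz
    · simpa using hc
  have mA : ∀ x, x ∈ A ↔ x ∈ S ∧ aff u r x = 0 := fun x => by rw [hA, Finset.mem_filter]
  have mB : ∀ x, x ∈ B ↔ x ∈ S ∧ aff u r x ≠ 0 := fun x => by rw [hB, Finset.mem_filter]
  -- all triples `((x, y), q)`
  set all := A.offDiag ×ˢ B with hall
  have hallc : all.card = A.card * (A.card - 1) * B.card := by
    rw [hall, Finset.card_product, Finset.offDiag_card]
    congr 1
    rw [Nat.mul_sub, mul_one]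
  -- the bad ones
  set bad := all.filter fun w => ∃ q' ∈ B, q' ≠ w.2 ∧ q' ∈ affineSpan ℝ ({w.1.1, w.1.2, w.2} : Set Sp)
    with hbad
  set good := all.filter fun w => ¬ ∃ q' ∈ B, q' ≠ w.2 ∧ q' ∈ affineSpan ℝ ({w.1.1, w.1.2, w.2} : Set Sp)
    with hgood
  have hsum : bad.card + good.card = all.card := Finset.card_filter_add_card_filter_not _
  have hbadc : bad.card ≤ B.card * (B.card - 1) * (2 * (A.card / 2)) := by
    have hsub : bad ⊆ B.offDiag.biUnion fun v => (badp A v.1 v.2).image fun w => (w, v.1) := by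
      intro w hw
      rw [hbad, Finset.mem_filter, hall, Finset.mem_product, Finset.mem_offDiag] at hw
      obtain ⟨⟨⟨h1, h2, h12⟩, h3⟩, q', hq', hne, hs⟩ := hw
      rw [Finset.mem_biUnion]
      refine ⟨(w.2, q'), Finset.mem_offDiag.2 ⟨h3, hq', hne.symm⟩, ?_⟩
      rw [Finset.mem_image]
      exact ⟨w.1, mem_badp.2 ⟨⟨h1, h2, h12⟩, hs⟩, rfl⟩
    refine (Finset.card_le_card hsub).trans ?_
    refine (Finset.card_biUnion_le_card_mul _ _ (2 * (A.card / 2)) ?_).trans ?_
    · intro v hv
      rw [Finset.mem_offDiag] at hv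
      refine Finset.card_image_le.trans ?_
      refine badp_card (u := u) (r := r) (fun x hx => ((mA x).1 hx).2) ?_ ((mB _).1 hv.1).2 ?_
      · intro x hx y hy z hz
        exact hcol x ((mA x).1 hx).1 y ((mA y).1 hy).1 z ((mA z).1 hz).1
      · intro x hx
        refine hcol _ ((mB _).1 hv.2.1).1 x ((mA x).1 hx).1 _ ((mB _).1 hv.1).1 ?_ hv.2.2.symm ?_
        · intro h
          exact ((mB _).1 hv.2.1).2 (h ▸ ((mA x).1 hx).2)
        · intro h
          exact ((mB _).1 hv.1).2 (h ▸ ((mA x).1 hx).2)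
    · rw [Finset.offDiag_card, Nat.mul_sub, mul_one]
  -- the good ones are ordinary, two to one
  have hgoodc : good.card ≤ 2 * (ords S).card := by
    set φ : (Sp × Sp) × Sp → Finset Sp := fun w => {w.1.1, w.1.2, w.2} with hφ
    have himg : good.image φ ⊆ ords S := by
      intro T hT
      obtain ⟨w, hw, rfl⟩ := Finset.mem_image.1 hT
      rw [hgood, Finset.mem_filter, hall, Finset.mem_product, Finset.mem_offDiag] at hw
      obtain ⟨⟨⟨h1, h2, h12⟩, h3⟩, hno⟩ := hw
      have h13 : w.1.1 ≠ w.2 := fun h => ((mB _).1 h3).2 (h ▸ ((mA _).1 h1).2)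
      have h23 : w.1.2 ≠ w.2 := fun h => ((mB _).1 h3).2 (h ▸ ((mA _).1 h2).2)
      unfold ords
      rw [Finset.mem_filter, Finset.mem_powersetCard]
      refine ⟨⟨?_, Finset.card_eq_three.2 ⟨_, _, _, h12, h13, h23, rfl⟩⟩, ?_⟩
      · intro x hx
        simp only [hφ, Finset.mem_insert, Finset.mem_singleton] at hx
        rcases hx with rfl | rfl | rfl
        · exact ((mA _).1 h1).1
        · exact ((mA _).1 h2).1
        · exact ((mB _).1 h3).1
      · intro p hp hps
        simp only [hφ, Finset.coe_insert, Finset.coe_singleton] at hps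
        simp only [hφ, Finset.mem_insert, Finset.mem_singleton]
        obtain ⟨α, β, γ, e1, e2⟩ := mem_span_three hps
        have hf := aff_three u r e1 e2
        rw [((mA _).1 h1).2, ((mA _).1 h2).2] at hf
        by_cases hfp : aff u r p = 0
        · have hγ : γ = 0 := by
            rw [hfp] at hf
            have : γ * aff u r w.2 = 0 := by linarith
            exact (mul_eq_zero.1 this).resolve_right ((mB _).1 h3).2
          rw [hγ, add_zero] at e1
          rw [hγ, zero_smul, add_zero] at e2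
          by_contra hcon
          push Not at hcon
          exact hcol p hp _ ((mA _).1 h1).1 _ ((mA _).1 h2).1 hcon.1 hcon.2.1 h12
            (collinear_of_weights e1 e2)
        · by_contra hcon
          push Not at hcon
          exact hno ⟨p, (mB _).2 ⟨hp, hfp⟩, hcon.2.2, hps⟩
    have hfib : good.card ≤ 2 * (good.image φ).card := by
      refine Finset.card_le_mul_card_image (f := φ) good 2 ?_
      intro T hT
      obtain ⟨w₀, hw₀, rfl⟩ := Finset.mem_image.1 hT
      rw [hgood, Finset.mem_filter, hall, Finset.mem_product, Finset.mem_offDiag] at hw₀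
      obtain ⟨⟨⟨g1, g2, g12⟩, g3⟩, -⟩ := hw₀
      have hsub : good.filter (fun w => φ w = φ w₀) ⊆
          ({(w₀.1, w₀.2), ((w₀.1.2, w₀.1.1), w₀.2)} : Finset ((Sp × Sp) × Sp)) := by
        intro w hw
        rw [Finset.mem_filter, hgood, Finset.mem_filter, hall, Finset.mem_product,
          Finset.mem_offDiag] at hw
        obtain ⟨⟨⟨⟨h1, h2, h12⟩, h3⟩, -⟩, he⟩ := hw
        have m1 : ∀ x, (x = w.1.1 ∨ x = w.1.2 ∨ x = w.2) ↔ (x = w₀.1.1 ∨ x = w₀.1.2 ∨ x = w₀.2) := by
          intro x
          have := Finset.ext_iff.1 he x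
          simpa [hφ] using this
        have d13 : ∀ {x y : Sp}, x ∈ A → y ∈ B → x ≠ y := fun {x y} hx hy h =>
          ((mB _).1 hy).2 (h ▸ ((mA _).1 hx).2)
        have k2 : w.2 = w₀.2 := by
          rcases (m1 w.2).1 (Or.inr (Or.inr rfl)) with h | h | h
          · exact absurd h.symm (d13 g1 h3)
          · exact absurd h.symm (d13 g2 h3)
          · exact h
        have k1 := (m1 w.1.1).1 (Or.inl rfl)
        have k1' := (m1 w.1.2).1 (Or.inr (Or.inl rfl))
        rw [Finset.mem_insert, Finset.mem_singleton]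
        rcases k1 with h | h | h
        · rcases k1' with h' | h' | h'
          · exact absurd (h.trans h'.symm) h12
          · left
            exact (Prod.ext (Prod.ext h h') k2 : w = (w₀.1, w₀.2))
          · exact absurd h' (d13 h2 g3)
        · rcases k1' with h' | h' | h'
          · right
            exact Prod.ext (Prod.ext h h') k2
          · exact absurd (h.trans h'.symm) h12
          · exact absurd h' (d13 h2 g3)
        · exact absurd h (d13 h1 g3)
      refine (Finset.card_le_card hsub).trans ?_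
      exact Finset.card_le_two (α := (Sp × Sp) × Sp)
    exact hfib.trans (Nat.mul_le_mul_left 2 (Finset.card_le_card himg))
  omega

end Pool.Agent.OPl
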